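import Pool.Agent.Lib.MP_610fe3_an.H6N.Spec
import Pool.Agent.Lib.MP_610fe3_an.H6.Sharp

/-!
# Contraction rates of the pairs whose base point stays in a set
-/

open Set Filter Function
open scoped Topology

namespace Pool.Agent.Lib.MP610fe3.H6

open Cf Cf.Len2

universe u v

/-- Module DECON. -/
theorem specDecOn : SpecDecOn.{u, v} := by
  intro M W _ _ _ _ E f s hs Y C₀ m l hm hml hl1 H
  have hl : 0 < l := hm.trans hml
  obtain ⟨N, hN1, hNpos⟩ : ∃ N : ℕ, C₀ * (m / l) ^ N < 1 / 2 ∧ 1 ≤ N := by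
    have h := (tendsto_pow_atTop_nhds_zero_of_lt_one (r := m / l) (by positivity)
      ((div_lt_one hl).2 hml)).const_mul C₀
    rw [mul_zero] at h
    exact ((h.eventually (gt_mem_nhds (show (0 : ℝ) < 1 / 2 by norm_num))).and
      (eventually_ge_atTop 1)).exists
  have hlN : 0 < l ^ N := by positivity
  have hN : C₀ * m ^ N ≤ l ^ N / 2 := by
    have h1 : C₀ * m ^ N = C₀ * (m / l) ^ N * l ^ N := by
      rw [div_pow]
      field_simp
    rw [h1]
    nlinarith
  obtain ⟨B, hB⟩ : ∃ B : ℝ, 0 < B ∧ ∀ x, ‖iterD s.D f N x‖ ≤ B := by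
    have hc : Continuous fun x => ‖iterD s.D f N x‖ :=
      (continuous_iterD s.hD.cont f.continuous N).norm
    obtain ⟨B, hB⟩ := (isCompact_range hc).bddAbove
    exact ⟨max B 1, by positivity, fun x => (hB ⟨x, rfl⟩).trans (le_max_left _ _)⟩
  obtain ⟨hB0, hB⟩ := hB
  obtain ⟨r, hr, happ⟩ := hasD_iter_approx s N (l ^ N / 4) (by positivity)
  obtain ⟨ε₂, hε₂, hcone⟩ := exists_cone s hs (η := l ^ N / 4 / B) (by positivity)
  obtain ⟨L, r', hL1, hr', hlip⟩ := s.hD.exists_lip
  set ε : ℝ := min (min (r / 2) (r' / 2)) ε₂ with hε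
  have hε0 : 0 < ε := by positivity
  have hεr : ε < r := lt_of_le_of_lt ((min_le_left _ _).trans (min_le_left _ _)) (by linarith)
  have hεr' : ε < r' := lt_of_le_of_lt ((min_le_left _ _).trans (min_le_right _ _)) (by linarith)
  have hstep : ∀ x, (∀ t < N, f^[t] x ∈ Y) → ∀ z ∈ Wl f ε x,
      dist (f^[N] z) (f^[N] x) ≤ l ^ N * dist z x := by
    intro x hY z hz
    have h1 := happ x z ((hz 0).trans_lt hεr)
    have h2 := hcone x z (Wl_mono (min_le_right _ _) hz)
    have h3 := H N x hY (E.e z - E.e x)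
    have h4 : iterD s.D f N x (E.e z - E.e x) = iterD s.D f N x (s.S x (E.e z - E.e x)) +
        iterD s.D f N x (E.e z - E.e x - s.S x (E.e z - E.e x)) := by
      rw [← map_add]
      congr 1
      abel
    have h5 : ‖iterD s.D f N x (E.e z - E.e x - s.S x (E.e z - E.e x))‖ ≤
        l ^ N / 4 * dist z x := by
      refine ((iterD s.D f N x).le_opNorm _).trans ?_
      calc ‖iterD s.D f N x‖ * ‖E.e z - E.e x - s.S x (E.e z - E.e x)‖
          ≤ B * (l ^ N / 4 / B * dist z x) := by
            have := hB x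
            gcongr
        _ = l ^ N / 4 * dist z x := by field_simp
    have h6 : ‖E.e z - E.e x‖ = dist z x := (E.dist_eq z x).symm
    rw [h6] at h3
    have h7 : ‖iterD s.D f N x (E.e z - E.e x)‖ ≤ l ^ N / 2 * dist z x + l ^ N / 4 * dist z x := by
      rw [h4]
      refine (norm_add_le _ _).trans (add_le_add ?_ h5)
      exact h3.trans (mul_le_mul_of_nonneg_right hN dist_nonneg)
    rw [E.dist_eq (f^[N] z) (f^[N] x)]
    have h8 : E.e (f^[N] z) - E.e (f^[N] x) =
        (E.e (f^[N] z) - E.e (f^[N] x) - iterD s.D f N x (E.e z - E.e x)) +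
        iterD s.D f N x (E.e z - E.e x) := by abel
    rw [h8]
    refine (norm_add_le _ _).trans ?_
    linarith
  have hq : ∀ (q : ℕ) (x : M), (∀ t < N * q, f^[t] x ∈ Y) → ∀ z ∈ Wl f ε x,
      dist (f^[N * q] z) (f^[N * q] x) ≤ l ^ (N * q) * dist z x := by
    intro q
    induction q with
    | zero => intro x _ z _; simp
    | succ q ih =>
      intro x hY z hz
      have h2 : N + N * q = N * (q + 1) := by ring
      have hY' : ∀ t < N, f^[t] (f^[N * q] x) ∈ Y := by
        intro t ht
        rw [← iterate_add_apply]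
        exact hY _ (by omega)
      have h1 := hstep _ hY' _ (Wl_iter hz (N * q))
      rw [← iterate_add_apply, ← iterate_add_apply] at h1
      rw [h2] at h1
      calc _ ≤ l ^ N * dist (f^[N * q] z) (f^[N * q] x) := h1
        _ ≤ l ^ N * (l ^ (N * q) * dist z x) := by
            gcongr
            exact ih x (fun t ht => hY t (by omega)) z hz
        _ = l ^ (N * (q + 1)) * dist z x := by ring
  refine ⟨ε, L ^ N / l ^ N, hε0, ?_, fun x z hz n hY => ?_⟩
  · rw [one_le_div hlN]
    exact (pow_le_one₀ hl.le hl1.le).trans (one_le_pow₀ hL1)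
  have hz2 : ∀ k, dist (f^[k] z) (f^[k] x) < r' := fun k => (hz k).trans_lt hεr'
  have hLip : ∀ i j, dist (f^[i + j] z) (f^[i + j] x) ≤ L ^ j * dist (f^[i] z) (f^[i] x) := by
    intro i j
    induction j with
    | zero => simp
    | succ j ih =>
      have h2 := hlip (f^[i + j] z) (f^[i + j] x) (hz2 _)
      rw [← add_assoc, iterate_succ_apply', iterate_succ_apply']
      calc _ ≤ L * dist (f^[i + j] z) (f^[i + j] x) := h2
        _ ≤ L * (L ^ j * dist (f^[i] z) (f^[i] x)) := by gcongr
        _ = L ^ (j + 1) * dist (f^[i] z) (f^[i] x) := by ring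
  set q := n / N with hqdef
  set j := n % N with hj
  have hkq : N * q + j = n := Nat.div_add_mod n N
  have hjN : j < N := Nat.mod_lt _ hNpos
  have h1 := hLip (N * q) j
  rw [hkq] at h1
  have h2 := hq q x (fun t ht => hY t (by omega)) z hz
  have hLj : L ^ j ≤ L ^ N := pow_le_pow_right₀ hL1 hjN.le
  have hlq : l ^ (N * q) ≤ l ^ n / l ^ N := by
    rw [le_div_iff₀ hlN, ← pow_add]
    exact pow_le_pow_of_le_one hl.le hl1.le (by omega)
  have hL0 : 0 ≤ L ^ j := by positivity
  calc dist (f^[n] z) (f^[n] x) ≤ L ^ j * dist (f^[N * q] z) (f^[N * q] x) := h1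
    _ ≤ L ^ N * (l ^ n / l ^ N * dist z x) := by
        refine mul_le_mul hLj (h2.trans ?_) dist_nonneg (by positivity)
        exact mul_le_mul_of_nonneg_right hlq dist_nonneg
    _ = L ^ N / l ^ N * l ^ n * dist z x := by ring

end Pool.Agent.Lib.MP610fe3.H6
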