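import Pool.Agent.Lib.MP_610fe3_an.H6N.Spec
import Pool.Agent.Lib.MP_610fe3_an.H6.Sharp

/-!
# Paths with controlled growth near the points of a set
-/

open Set Filter Function
open scoped Topology

namespace Pool.Agent.Lib.MP610fe3.H6

open Cf Cf.Len2

universe u v

/-- Module SLOWON. -/
theorem specSlowOn : SpecSlowOn.{u, v} := by
  intro M W _ _ _ _ _ E f s hs Y C₀ κ hC₀ hκ H ε₁ r₀ hε₁ hr₀
  obtain ⟨εc, Cc, hcrd⟩ := specCrd M W E f s hs
  obtain ⟨εD, CD, lD, hdec⟩ := exists_dec s hs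
  obtain ⟨K, hK1, hK⟩ := s.exists_bdd
  have hK0 : 0 < K := by linarith
  have hCc := hcrd.one_le
  set ε' : ℝ := min (min (min (ε₁ / 2) r₀) (εD / 2)) εc with hε'
  have hε'0 : 0 < ε' := by
    have := hcrd.ε_pos
    have := hdec.ε_pos
    positivity
  have hε'1 : 2 * ε' ≤ ε₁ := by
    have : ε' ≤ ε₁ / 2 := ((min_le_left _ _).trans (min_le_left _ _)).trans (min_le_left _ _)
    linarith
  have hε'r : ε' ≤ r₀ := ((min_le_left _ _).trans (min_le_left _ _)).trans (min_le_right _ _)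
  have hε'D : 2 * ε' ≤ εD := by
    have : ε' ≤ εD / 2 := (min_le_left _ _).trans (min_le_right _ _)
    linarith
  have hε'c : ε' ≤ εc := min_le_right _ _
  obtain ⟨r, hr, hsurj⟩ := hcrd.surj ε' hε'0
  set Λ₁ : ℝ := Cc * r with hΛ₁
  have hΛ₁0 : 0 ≤ Λ₁ := by positivity
  refine ⟨min ε' (r / K), Λ₁ * C₀, by positivity, by positivity, fun x hxY y hy => ?_⟩
  have hyε' : y ∈ Wl f ε' x := Wl_mono (min_le_left _ _) hy
  set w₀ : W := s.S x (E.e y - E.e x) with hw₀
  have hw₀S : s.S x w₀ = w₀ := s.SS_apply x _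
  have hw₀r : ‖w₀‖ ≤ r := by
    have h1 : ‖w₀‖ ≤ K * ‖E.e y - E.e x‖ :=
      ((s.S x).le_opNorm _).trans (mul_le_mul_of_nonneg_right (hK x).1 (norm_nonneg _))
    rw [← E.dist_eq y x] at h1
    have h2 : dist y x ≤ r / K := (Wl_dist hy).trans (min_le_right _ _)
    calc ‖w₀‖ ≤ K * dist y x := h1
      _ ≤ K * (r / K) := by gcongr
      _ = r := by field_simp
  set c : ℝ → ℝ := fun t => max 0 (min t 1) with hc
  have hc0 : ∀ t, 0 ≤ c t := fun t => le_max_left _ _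
  have hc1 : ∀ t, c t ≤ 1 := fun t => max_le zero_le_one (min_le_right _ _)
  have hcI : ∀ t ∈ Icc (0 : ℝ) 1, c t = t := by
    intro t ht
    simp only [hc]
    rw [min_eq_left ht.2, max_eq_right ht.1]
  have hclip : ∀ t t', |c t - c t'| ≤ |t - t'| := by
    intro t t'
    simp only [hc]
    exact (abs_max_sub_max_le_max _ _ _ _).trans (by
      rw [sub_self, abs_zero]
      refine max_le (abs_nonneg _) ?_
      refine (abs_min_sub_min_le_max _ _ _ _).trans ?_
      rw [sub_self, abs_zero]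
      exact max_le le_rfl (abs_nonneg _))
  have hex : ∀ t : ℝ, ∃ z ∈ Wl f ε' x, s.S x (E.e z - E.e x) = c t • w₀ := by
    intro t
    refine hsurj x (c t • w₀) (by rw [map_smul, hw₀S]) ?_
    rw [norm_smul, Real.norm_eq_abs, abs_of_nonneg (hc0 t)]
    calc c t * ‖w₀‖ ≤ 1 * ‖w₀‖ := by gcongr; exact hc1 t
      _ ≤ r := by rw [one_mul]; exact hw₀r
  choose γ hγW hγS using hex
  have hγY : ∀ t, γ t ∈ Y := fun t => hxY (by
    rw [Metric.mem_closedBall]
    exact (Wl_dist (hγW t)).trans hε'r)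
  have hγlip : ∀ t t', dist (γ t) (γ t') ≤ Λ₁ * |t - t'| := by
    intro t t'
    have h1 := hcrd.lower x (γ t) (Wl_mono hε'c (hγW t)) (γ t') (Wl_mono hε'c (hγW t'))
    have h2 : s.S x (E.e (γ t) - E.e (γ t')) = (c t - c t') • w₀ := by
      have h3 : E.e (γ t) - E.e (γ t') = (E.e (γ t) - E.e x) - (E.e (γ t') - E.e x) := by abel
      rw [h3, map_sub, hγS, hγS, sub_smul]
    rw [h2, norm_smul, Real.norm_eq_abs] at h1
    calc dist (γ t) (γ t') ≤ Cc * (|c t - c t'| * ‖w₀‖) := h1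
      _ ≤ Cc * (|t - t'| * r) := by
          have := hclip t t'
          gcongr
      _ = Λ₁ * |t - t'| := by rw [hΛ₁]; ring
  have hγc : Continuous γ := by
    refine (LipschitzWith.of_dist_le_mul (K := ⟨Λ₁, hΛ₁0⟩) fun t t' => ?_).continuous
    rw [Real.dist_eq]
    exact hγlip t t'
  have hγmut : ∀ t t', γ t ∈ Wl f (2 * ε') (γ t') := by
    intro t t'
    have := Wl_trans (Wl_comm (hγW t')) (hγW t)
    rwa [← two_mul] at this
  have h0 : γ 0 = x := by
    have h1 := hcrd.lower x (γ 0) (Wl_mono hε'c (hγW 0)) x (mem_Wl_self hcrd.ε_pos.le)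
    have h2 := hγS 0
    rw [hcI 0 ⟨le_rfl, zero_le_one⟩, zero_smul] at h2
    rw [h2, norm_zero, mul_zero] at h1
    exact dist_le_zero.1 h1
  have h1 : γ 1 = y := by
    have h1 := hcrd.lower x (γ 1) (Wl_mono hε'c (hγW 1)) y (Wl_mono hε'c hyε')
    have h2 := hγS 1
    rw [hcI 1 ⟨zero_le_one, le_rfl⟩, one_smul] at h2
    have h3 : E.e (γ 1) - E.e y = (E.e (γ 1) - E.e x) - (E.e y - E.e x) := by abel
    rw [h3, map_sub, h2, ← hw₀, sub_self, norm_zero, mul_zero] at h1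
    exact dist_le_zero.1 h1
  have hgrow : ∀ (n : ℕ) (a b : ℝ), a ≤ b →
      dist (f.symm^[n] (γ b)) (f.symm^[n] (γ a)) ≤ Λ₁ * C₀ * κ ^ n * (b - a) := by
    intro n a b hab
    have h2 := path_len (s := s.swap) hs.swap (ε := εD) (C := CD) (l := lD) hdec n hγc
      (Λ := Λ₁) hab (fun t _ t' _ => hγlip t' t)
      (fun t _ t' _ => Wl_mono hε'D (hγmut t' t)) hΛ₁0
    refine h2.trans ?_
    have h3 : ∀ t : ℝ, ‖iterD s.Di f.symm n (γ t) ∘L s.S (γ t)‖ ≤ C₀ * κ ^ n := by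
      intro t
      refine ContinuousLinearMap.opNorm_le_bound _ (by positivity) fun w => ?_
      exact H n (γ t) (hγY t) w
    have h4 : ‖∫ t in a..b, ‖iterD s.swap.D f.symm n (γ t) ∘L s.swap.U (γ t)‖‖ ≤
        C₀ * κ ^ n * |b - a| := by
      refine intervalIntegral.norm_integral_le_of_norm_le_const fun t _ => ?_
      rw [norm_norm]
      exact h3 t
    have h5 := (Real.le_norm_self _).trans h4
    rw [abs_of_nonneg (by linarith)] at h5
    calc Λ₁ * ∫ t in a..b, ‖iterD s.swap.D f.symm n (γ t) ∘L s.swap.U (γ t)‖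
        ≤ Λ₁ * (C₀ * κ ^ n * (b - a)) := by gcongr
      _ = Λ₁ * C₀ * κ ^ n * (b - a) := by ring
  refine ⟨γ, hγc.continuousOn, h0, h1, fun t _ t' _ => Wl_mono hε'1 (hγmut t t'),
    fun n t _ t' _ => ?_⟩
  rcases le_total t t' with h | h
  · rw [dist_comm, abs_sub_comm, abs_of_nonneg (by linarith)]
    exact hgrow n t t' h
  · rw [abs_of_nonneg (by linarith)]
    exact hgrow n t' t h

end Pool.Agent.Lib.MP610fe3.H6
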