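import Pool.Agent.Lib.MP_610fe3_an.H6N.Main
import Pool.Agent.Lib.MP_610fe3_an.H6N.DecOn
import Pool.Agent.Lib.MP_610fe3_an.H6N.SlowOn
import Pool.Agent.Lib.MP_610fe3_an.H6E.Mfd

/-!
# Location refined pinching for manifolds
-/

open Set Filter Function Bundle
open scoped Manifold ContDiff Topology

namespace Pool.Agent.Lib.MP610fe3.H6

open Cf Gen Mfd

universe v

theorem HasCoversOn.mono {M : Type*} [MetricSpace M] {f : M → M} {F F' : Set M} {h : ℝ}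
    (H : HasCoversOn f F h) (hF : F' ⊆ F) : HasCoversOn f F' h := by
  intro ε hε
  obtain ⟨Λ, HΛ⟩ := H ε hε
  refine ⟨Λ, fun n => ?_⟩
  obtain ⟨N, D, hN, hDc, hDu, hDm⟩ := HΛ n
  exact ⟨N, D, hN, hDc, hF.trans hDu, hDm⟩

variable {V : Type*} [NormedAddCommGroup V] [NormedSpace ℝ V] [FiniteDimensional ℝ V] {N : ℕ}
  {M : Type v} [MetricSpace M] [CompactSpace M]
  [ChartedSpace V M] [IsManifold 𝓘(ℝ, V) ∞ M]
  [RiemannianBundle (fun x : M => TangentSpace 𝓘(ℝ, V) x)]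
  [IsContinuousRiemannianBundle V (fun x : M => TangentSpace 𝓘(ℝ, V) x)]

/-- Rates of the derivative on an invariant bundle, seen in the ambient space; only for the pairs
`(k, x)` in `A`. -/
theorem rate_transfer_on (E : Emb M (EuclideanSpace ℝ (Fin N)))
    (he : ContMDiff 𝓘(ℝ, V) (𝓡 N) ∞ E.e)
    (hinj : ∀ x, Injective (mfderiv 𝓘(ℝ, V) (𝓡 N) E.e x))
    (hP : ∀ x, E.P x = Gen.KF V E.e E.e x)
    {h : M → M} (hh : ContMDiff 𝓘(ℝ, V) 𝓘(ℝ, V) 1 h)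
    {D : M → EuclideanSpace ℝ (Fin N) →L[ℝ] EuclideanSpace ℝ (Fin N)} (hD : HasD E h D)
    {F : ∀ x : M, Submodule ℝ (TangentSpace 𝓘(ℝ, V) x)}
    {Q : M → EuclideanSpace ℝ (Fin N) →L[ℝ] EuclideanSpace ℝ (Fin N)} {K : ℝ} (hK : 0 ≤ K)
    (hQ : ∀ x, ‖Q x‖ ≤ K)
    (hF : ∀ x, (Q x).range = (F x).map (mfderiv 𝓘(ℝ, V) (𝓡 N) E.e x).toLinearMap)
    (A : ℕ → M → Prop)
    {C κ : ℝ} (hC : 0 ≤ C) (hκ : 0 ≤ κ)
    (H : ∀ (k : ℕ) (x : M), A k x → ∀ v ∈ F x,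
      ‖mfderiv 𝓘(ℝ, V) 𝓘(ℝ, V) (h^[k]) x v‖ ≤ C * κ ^ k * ‖v‖) :
    ∃ C' : ℝ, 0 ≤ C' ∧ ∀ (k : ℕ) (x : M), A k x → ∀ w : EuclideanSpace ℝ (Fin N),
      ‖iterD D h k x (Q x w)‖ ≤ C' * κ ^ k * ‖w‖ := by
  obtain ⟨c₀, C₁, hc₀, hC₁, hn⟩ := exists_norm_bounds E.e he hinj
  have hinj' : ∀ x, Injective (dF V E.e x) := hinj
  have hn' : ∀ x (v : TangentSpace 𝓘(ℝ, V) x), c₀ * ‖v‖ ≤ ‖dE V E.e x v‖ ∧
      ‖dE V E.e x v‖ ≤ C₁ * ‖v‖ := by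
    intro x v
    have h1 := hn x v
    rw [norm_tangentSpace_vectorSpace] at h1
    exact h1
  have hDd : ∀ x (u : TangentSpace 𝓘(ℝ, V) x), D x (dE V E.e x u) =
      dE V E.e (h x) (mfderiv 𝓘(ℝ, V) 𝓘(ℝ, V) h x u) := by
    intro x u
    have he1 : ContMDiff 𝓘(ℝ, V) (𝓡 N) 1 E.e := he.of_le (by exact_mod_cast le_top)
    have h3 := mfderiv_comp (I := 𝓘(ℝ, V)) (I' := 𝓘(ℝ, V)) (I'' := 𝓡 N) (f := h) x
      (he1.mdifferentiable (by norm_num) (h x)) (hh.mdifferentiable (by norm_num) x)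
    rw [HasD_eq_KF E he hinj hP hh hD x]
    refine (KF_apply hinj' x u).trans ?_
    unfold dF
    rw [h3]
    rfl
  refine ⟨C₁ * C * (1 / c₀) * K, by positivity, fun k x hA w => ?_⟩
  have hw : Q x w ∈ (Q x).range := ⟨w, rfl⟩
  have hw' := hw
  rw [hF x] at hw'
  obtain ⟨v, hv, hvw⟩ := hw'
  have hvw' : dE V E.e x v = Q x w := hvw
  have hit : iterD D h k x (dE V E.e x v) =
      dE V E.e (h^[k] x) (mfderiv 𝓘(ℝ, V) 𝓘(ℝ, V) (h^[k]) x v) := iterD_dE he hh hDd k x v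
  have h1 := H k x hA v hv
  have h2 : ‖v‖ ≤ 1 / c₀ * ‖Q x w‖ := by
    rw [← hvw', one_div, inv_mul_eq_div, le_div_iff₀ hc₀, mul_comm]
    exact (hn' x v).1
  have h3 : ‖Q x w‖ ≤ K * ‖w‖ :=
    ((Q x).le_opNorm w).trans (mul_le_mul_of_nonneg_right (hQ x) (norm_nonneg _))
  have hκk : 0 ≤ κ ^ k := pow_nonneg hκ k
  rw [← hvw', hit]
  calc ‖dE V E.e (h^[k] x) (mfderiv 𝓘(ℝ, V) 𝓘(ℝ, V) (h^[k]) x v)‖
      ≤ C₁ * ‖mfderiv 𝓘(ℝ, V) 𝓘(ℝ, V) (h^[k]) x v‖ := (hn' _ _).2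
    _ ≤ C₁ * (C * κ ^ k * ‖v‖) := by gcongr
    _ ≤ C₁ * (C * κ ^ k * (1 / c₀ * (K * ‖w‖))) := by
        have h4 : ‖v‖ ≤ 1 / c₀ * (K * ‖w‖) := h2.trans (by gcongr)
        gcongr
    _ = _ := by ring

/-- The data of one trapping region: the lower unstable rate `a` in `U`, the upper unstable rate
`b` in `U`, and the upper stable rate `c` outside `closure U`. -/
def LocalRates (f : M ≃ₘ^1⟮𝓘(ℝ, V), 𝓘(ℝ, V)⟯ M)
    (Es Eu : ∀ x : M, Submodule ℝ (TangentSpace 𝓘(ℝ, V) x)) (ds du : ℕ) (χs : ℝ) (U : Set M)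
    (C a b c : ℝ) : Prop :=
  (∀ (k : ℕ) (x : M), (∀ t < k, (⇑f.symm)^[t] x ∈ U) → ∀ v ∈ Eu x,
    ‖mfderiv 𝓘(ℝ, V) 𝓘(ℝ, V) ((⇑f.symm)^[k]) x v‖ ≤ C * Real.exp (-a * k) * ‖v‖) ∧
  ((∀ (k : ℕ), ∀ x ∈ U, ∀ v ∈ Eu x,
      ‖mfderiv 𝓘(ℝ, V) 𝓘(ℝ, V) ((⇑f)^[k]) x v‖ ≤ C * Real.exp (b * k) * ‖v‖) ∨
    Dynamics.coverEntropy f (closure U) ≤ ((b + (du - 1) * a : ℝ) : EReal)) ∧
  ((∀ (k : ℕ), ∀ x ∉ closure U, ∀ v ∈ Es x,
      ‖mfderiv 𝓘(ℝ, V) 𝓘(ℝ, V) ((⇑f.symm)^[k]) x v‖ ≤ C * Real.exp (c * k) * ‖v‖) ∨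
    Dynamics.coverEntropy f.symm Uᶜ ≤ ((c + (ds - 1) * χs : ℝ) : EReal))

theorem mfd_trap (e : M → EuclideanSpace ℝ (Fin N)) (hiso : Isometry e)
    (he : ContMDiff 𝓘(ℝ, V) (𝓡 N) ∞ e)
    (hinj : ∀ x, Injective (mfderiv 𝓘(ℝ, V) (𝓡 N) e x))
    (f : M ≃ₘ^1⟮𝓘(ℝ, V), 𝓘(ℝ, V)⟯ M)
    (Es Eu : ∀ x : M, Submodule ℝ (TangentSpace 𝓘(ℝ, V) x)) (hA : Gen.IsAnosovSplitting f Es Eu)
    {ds du : ℕ} (hds : ∀ x, Module.finrank ℝ (Es x) = ds)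
    (hdu : ∀ x, Module.finrank ℝ (Eu x) = du) {C χs χu C' a b c : ℝ} (hχs : 0 < χs)
    (hχu : 0 < χu) (hχa : χu ≤ a)
    (hs : ∀ (k : ℕ) (x : M), ∀ v ∈ Es x,
      ‖mfderiv 𝓘(ℝ, V) 𝓘(ℝ, V) ((⇑f)^[k]) x v‖ ≤ C * Real.exp (-χs * k) * ‖v‖)
    (hu : ∀ (k : ℕ) (x : M), ∀ v ∈ Eu x,
      ‖mfderiv 𝓘(ℝ, V) 𝓘(ℝ, V) ((⇑f.symm)^[k]) x v‖ ≤ C * Real.exp (-χu * k) * ‖v‖)
    {U : Set M} (hU : IsOpen U) (htrap : f '' closure U ⊆ U) (hfr : (frontier U).Nonempty)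
    (hL : LocalRates f Es Eu ds du χs U C' a b c) :
    χu * χs ≤ (max b a - a) * (max c χs - χs) := by
  obtain ⟨E, hE, hEP, hr⟩ := Gen.exists_emb e hiso he hinj
  subst hE
  obtain ⟨s, hsH, hsS, hsU⟩ := Gen.exists_split E he hinj hr f Es Eu hA
  obtain ⟨K, hK1, hK⟩ := s.exists_bdd
  have hK0 : 0 ≤ K := by linarith
  obtain ⟨hLa, hLb, hLc⟩ := hL
  have hC0 : 0 ≤ max (max C C') 0 := le_max_right _ _
  have hup : ∀ {c' κ : ℝ} (k : ℕ) {t u : ℝ}, c' ≤ max C C' → 0 ≤ κ → 0 ≤ t →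
      u ≤ c' * κ ^ k * t → u ≤ max (max C C') 0 * κ ^ k * t := by
    intro c' κ k t u hc' hκ ht h
    refine h.trans ?_
    have h1 : 0 ≤ κ ^ k := pow_nonneg hκ k
    have h2 : c' ≤ max (max C C') 0 := hc'.trans (le_max_left _ _)
    gcongr
  simp only [exp_rate] at hs hu hLa hLb hLc
  obtain ⟨C₁, hC₁, H₁⟩ := rate_transfer E he hinj hEP f.contMDiff s.hD hK0 (fun x => (hK x).1)
    hsS hC0 (Real.exp_pos _).le (fun k x v hv => hup k (le_max_left _ _) (Real.exp_pos _).le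
      (norm_nonneg _) (hs k x v hv))
  obtain ⟨C₂, hC₂, H₂⟩ := rate_transfer E he hinj hEP f.symm.contMDiff s.hDi hK0
    (fun x => (hK x).2) hsU hC0 (Real.exp_pos _).le
    (fun k x v hv => hup k (le_max_left _ _) (Real.exp_pos _).le (norm_nonneg _) (hu k x v hv))
  obtain ⟨C₅, hC₅, H₅⟩ := rate_transfer_on E he hinj hEP f.symm.contMDiff s.hDi hK0
    (fun x => (hK x).2) hsU (fun k x => ∀ t < k, (⇑f.symm)^[t] x ∈ U) hC0 (Real.exp_pos _).le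
    (fun k x hkx v hv => hup k (le_max_right _ _) (Real.exp_pos _).le (norm_nonneg _)
      (hLa k x hkx v hv))
  have htrap' : f.toHomeomorph '' closure U ⊆ U := htrap
  have hdual := trap_dual (f := f.toHomeomorph) hU htrap'
  have hc' : ∃ C₃ : ℝ, 0 ≤ C₃ ∧ ((∀ (k : ℕ) (x : M), x ∈ (closure U)ᶜ →
      ∀ (w : EuclideanSpace ℝ (Fin N)),
      ‖iterD s.Di f.toHomeomorph.symm k x (s.S x w)‖ ≤ C₃ * Real.exp c ^ k * ‖w‖) ∨
      ∀ h : ℝ, c + ((ds : ℝ) - 1) * χs < h →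
        HasCoversOn f.toHomeomorph.symm (closure (closure U)ᶜ) h) := by
    rcases hLc with hLc | hLc
    · obtain ⟨C₃, hC₃, H₃⟩ := rate_transfer_on E he hinj hEP f.symm.contMDiff s.hDi hK0
        (fun x => (hK x).1) hsS (fun _ x => x ∈ (closure U)ᶜ) hC0 (Real.exp_pos _).le
        (fun k x hx v hv => hup k (le_max_right _ _) (Real.exp_pos _).le (norm_nonneg _)
          (hLc k x hx v hv))
      exact ⟨C₃, hC₃, Or.inl H₃⟩
    · refine ⟨0, le_rfl, Or.inr fun h hh => ?_⟩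
      have h1 : MapsTo f.toHomeomorph.symm Uᶜ Uᶜ := by
        intro x hx hcon
        refine hx ?_
        have h2 := htrap' ⟨_, subset_closure hcon, rfl⟩
        rwa [Homeomorph.apply_symm_apply] at h2
      refine (specEntOn M f.toHomeomorph.symm f.toHomeomorph.symm.continuous Uᶜ hU.isClosed_compl
        h1 h (hLc.trans_lt (by exact_mod_cast hh))).mono ?_
      exact closure_minimal (compl_subset_compl.2 subset_closure) hU.isClosed_compl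
  have hb' : ∃ C₄ : ℝ, 0 ≤ C₄ ∧ ((∀ (k : ℕ) (x : M), x ∈ U →
      ∀ (w : EuclideanSpace ℝ (Fin N)),
      ‖iterD s.D f.toHomeomorph k x (s.U x w)‖ ≤ C₄ * Real.exp b ^ k * ‖w‖) ∨
      ∀ h : ℝ, b + ((du : ℝ) - 1) * a < h → HasCoversOn f.toHomeomorph (closure U) h) := by
    rcases hLb with hLb | hLb
    · obtain ⟨C₄, hC₄, H₄⟩ := rate_transfer_on E he hinj hEP f.contMDiff s.hD hK0
        (fun x => (hK x).2) hsU (fun _ x => x ∈ U) hC0 (Real.exp_pos _).le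
        (fun k x hx v hv => hup k (le_max_right _ _) (Real.exp_pos _).le (norm_nonneg _)
          (hLb k x hx v hv))
      exact ⟨C₄, hC₄, Or.inl H₄⟩
    · refine ⟨0, le_rfl, Or.inr fun h hh => ?_⟩
      have h1 : MapsTo f.toHomeomorph (closure U) (closure U) := fun x hx =>
        subset_closure (htrap' ⟨x, hx, rfl⟩)
      exact specEntOn M f.toHomeomorph f.toHomeomorph.continuous (closure U) isClosed_closure
        h1 h (hLb.trans_lt (by exact_mod_cast hh))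
  obtain ⟨C₃, hC₃, H₃⟩ := hc'
  obtain ⟨C₄, hC₄, H₄⟩ := hb'
  set C'' : ℝ := max (max C₁ C₂) (max (max C₃ C₄) C₅) with hC''
  have hC''0 : 0 ≤ C'' := hC₁.trans ((le_max_left _ _).trans (le_max_left _ _))
  have hup' : ∀ {κ c' : ℝ} (k : ℕ) {t u : ℝ}, c' ≤ C'' → 0 ≤ κ → 0 ≤ t → u ≤ c' * κ ^ k * t →
      u ≤ C'' * κ ^ k * t := by
    intro κ c' k t u hc' hκ ht h
    refine h.trans ?_
    have : 0 ≤ κ ^ k := pow_nonneg hκ k
    gcongr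
  have l1 : C₁ ≤ C'' := (le_max_left _ _).trans (le_max_left _ _)
  have l2 : C₂ ≤ C'' := (le_max_right _ _).trans (le_max_left _ _)
  have l3 : C₃ ≤ C'' := ((le_max_left _ _).trans (le_max_left _ _)).trans (le_max_right _ _)
  have l4 : C₄ ≤ C'' := ((le_max_right _ _).trans (le_max_left _ _)).trans (le_max_right _ _)
  have l5 : C₅ ≤ C'' := (le_max_right _ _).trans (le_max_right _ _)
  exact split_trap specDecOn specSlowOn s hsH (finrank_range_eq E hinj hsS hds)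
    (finrank_range_eq E hinj hsU hdu) (χR := χs) (χA := a) hC''0 hχs hχu le_rfl hχa hU htrap'
    hfr
    (fun k x w => hup' k l1 (Real.exp_pos _).le (norm_nonneg _) (H₁ k x w))
    (fun k x w => hup' k l2 (Real.exp_pos _).le (norm_nonneg _) (H₂ k x w))
    (fun k x _ w => hup' k l1 (Real.exp_pos _).le (norm_nonneg _) (H₁ k x w))
    (fun k x hkx w => hup' k l5 (Real.exp_pos _).le (norm_nonneg _) (H₅ k x hkx w))
    (H₃.imp (fun h k x hx w => hup' k l3 (Real.exp_pos _).le (norm_nonneg _) (h k x hx w)) id)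
    (H₄.imp (fun h k x hx w => hup' k l4 (Real.exp_pos _).le (norm_nonneg _) (h k x hx w)) id)

/-- **Location refined pinching.** -/
theorem mfd_local_pinching [ConnectedSpace M] (e : M → EuclideanSpace ℝ (Fin N))
    (hiso : Isometry e) (he : ContMDiff 𝓘(ℝ, V) (𝓡 N) ∞ e)
    (hinj : ∀ x, Injective (mfderiv 𝓘(ℝ, V) (𝓡 N) e x))
    (f : M ≃ₘ^1⟮𝓘(ℝ, V), 𝓘(ℝ, V)⟯ M)
    (Es Eu : ∀ x : M, Submodule ℝ (TangentSpace 𝓘(ℝ, V) x)) (hA : Gen.IsAnosovSplitting f Es Eu)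
    {ds du : ℕ} (hds : ∀ x, Module.finrank ℝ (Es x) = ds)
    (hdu : ∀ x, Module.finrank ℝ (Eu x) = du) {C χs χu : ℝ} (hχs : 0 < χs) (hχu : 0 < χu)
    (hs : ∀ (k : ℕ) (x : M), ∀ v ∈ Es x,
      ‖mfderiv 𝓘(ℝ, V) 𝓘(ℝ, V) ((⇑f)^[k]) x v‖ ≤ C * Real.exp (-χs * k) * ‖v‖)
    (hu : ∀ (k : ℕ) (x : M), ∀ v ∈ Eu x,
      ‖mfderiv 𝓘(ℝ, V) 𝓘(ℝ, V) ((⇑f.symm)^[k]) x v‖ ≤ C * Real.exp (-χu * k) * ‖v‖)
    (H : ∀ U : Set M, IsOpen U → U.Nonempty → U ≠ univ → f '' closure U ⊆ U →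
      ∃ C' a b c : ℝ, χu ≤ a ∧ (b - a) * (c - χs) < χu * χs ∧
        LocalRates f Es Eu ds du χs U C' a b c) : TopTransitive f := by
  obtain ⟨E, hE, hEP, hr⟩ := Gen.exists_emb e hiso he hinj
  subst hE
  obtain ⟨s, hsH, hsS, hsU⟩ := Gen.exists_split E he hinj hr f Es Eu hA
  refine topTransitive_of_shadowing (s.shadowing hsH) ?_
  by_contra hct
  obtain ⟨U, hU, hne, huniv⟩ := Cf.H1.exists_trap hct
  obtain ⟨C', a, b, c, h1, h2, h3⟩ := H U hU.1 hne huniv hU.2.image_subset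
  have h4 := mfd_trap E.e E.isom he hinj f Es Eu hA hds hdu hχs hχu h1 hs hu hU.1
    hU.2.image_subset (frontier_nonempty_of_trap hne huniv) h3
  have h5 : 0 < χu * χs := by positivity
  rcases le_total b a with h6 | h6
  · rw [max_eq_right h6, sub_self, zero_mul] at h4
    linarith
  · rcases le_total c χs with h7 | h7
    · rw [max_eq_right h7, sub_self, mul_zero] at h4
      linarith
    · rw [max_eq_left h6, max_eq_left h7] at h4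
      linarith

end Pool.Agent.Lib.MP610fe3.H6
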