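import Pool.Agent.Lib.MP_610fe3_an.H6N.Local
import Pool.Agent.Lib.MP_610fe3_an.H6N.EntOn
import Pool.Agent.Lib.MP_610fe3_an.H6E.Main

/-!
# Location refined pinching: one side
-/

open Set Filter Function
open scoped Topology

namespace Pool.Agent.Lib.MP610fe3.H6

open Cf

universe u v

variable {M : Type v} {W : Type u} [MetricSpace M] [CompactSpace M] [NormedAddCommGroup W]
  [InnerProductSpace ℝ W] [FiniteDimensional ℝ W] {E : Emb M W} {f : M ≃ₜ M}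

omit [FiniteDimensional ℝ W] in
/-- Crude bound of the iterates of the derivative. -/
theorem exists_crude (s : Split E f) : ∃ B : ℝ, 1 ≤ B ∧ ∀ (k : ℕ) (x : M) (w : W),
    ‖iterD s.Di f.symm k x (s.S x w)‖ ≤ B * B ^ k * ‖w‖ := by
  obtain ⟨K, hK1, hK⟩ := s.exists_bdd
  have hc : Continuous fun x => ‖s.Di x‖ := s.hDi.cont.norm
  obtain ⟨B, hB⟩ := (isCompact_range hc).bddAbove
  have hB' : ∀ x, ‖s.Di x‖ ≤ B := fun x => hB ⟨x, rfl⟩
  have hBK : 1 ≤ max B K := hK1.trans (le_max_right _ _)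
  refine ⟨max B K, hBK, fun k x w => ?_⟩
  have hs : ‖s.S x w‖ ≤ max B K * ‖w‖ :=
    ((s.S x).le_opNorm w).trans (by
      gcongr
      exact (hK x).1.trans (le_max_right _ _))
  have key : ∀ (k : ℕ) (x : M) (v : W), ‖iterD s.Di f.symm k x v‖ ≤ max B K ^ k * ‖v‖ := by
    intro k
    induction k with
    | zero => intro x v; simp [iterD]
    | succ k ih =>
      intro x v
      have h1 : ‖s.Di x v‖ ≤ max B K * ‖v‖ :=
        ((s.Di x).le_opNorm v).trans (by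
          gcongr
          exact (hB' x).trans (le_max_left _ _))
      have h2 := ih (f.symm x) (s.Di x v)
      have h3 : iterD s.Di f.symm (k + 1) x v = iterD s.Di f.symm k (f.symm x) (s.Di x v) := rfl
      rw [h3]
      calc ‖iterD s.Di f.symm k (f.symm x) (s.Di x v)‖ ≤ max B K ^ k * ‖s.Di x v‖ := h2
        _ ≤ max B K ^ k * (max B K * ‖v‖) := by gcongr
        _ = max B K ^ (k + 1) * ‖v‖ := by ring
  calc ‖iterD s.Di f.symm k x (s.S x w)‖ ≤ max B K ^ k * ‖s.S x w‖ := key k x _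
    _ ≤ max B K ^ k * (max B K * ‖w‖) := by gcongr
    _ = max B K * max B K ^ k * ‖w‖ := by ring

omit [FiniteDimensional ℝ W] in
/-- A bound over `V` gives a bound over its preimages. -/
theorem rate_pre (s : Split E f) {V : Set M} {C₀ κ : ℝ} (hC₀ : 0 ≤ C₀) (hκ : 1 ≤ κ)
    (hb : ∀ (k : ℕ), ∀ x ∈ V, ∀ w : W,
      ‖iterD s.Di f.symm k x (s.S x w)‖ ≤ C₀ * κ ^ k * ‖w‖) (N : ℕ) :
    ∃ C₁ : ℝ, 0 ≤ C₁ ∧ ∀ (k : ℕ), ∀ x ∈ f.symm^[N] ⁻¹' V, ∀ w : W,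
      ‖iterD s.Di f.symm k x (s.S x w)‖ ≤ C₁ * κ ^ k * ‖w‖ := by
  obtain ⟨B, hB1, hB⟩ := exists_crude s
  refine ⟨max (B * B ^ N) (C₀ * (B * B ^ N)), le_trans (by positivity) (le_max_left _ _),
    fun k x hx w => ?_⟩
  have hκk : 1 ≤ κ ^ k := one_le_pow₀ hκ
  rcases le_total k N with hk | hk
  · calc ‖iterD s.Di f.symm k x (s.S x w)‖ ≤ B * B ^ k * ‖w‖ := hB k x w
      _ ≤ B * B ^ N * ‖w‖ := by gcongr
      _ ≤ B * B ^ N * κ ^ k * ‖w‖ := by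
          have : 0 ≤ B * B ^ N * ‖w‖ := by positivity
          nlinarith
      _ ≤ _ := by
          gcongr
          exact le_max_left _ _
  · obtain ⟨j, rfl⟩ := Nat.exists_eq_add_of_le hk
    have e : iterD s.Di f.symm (N + j) x (s.S x w) =
        iterD s.Di f.symm j (f.symm^[N] x)
          (s.S (f.symm^[N] x) (iterD s.Di f.symm N x (s.S x w))) := by
      rw [add_comm N j, iterD_add, ContinuousLinearMap.comp_apply, s.iterDiS_apply N x w,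
        s.SS_apply]
    rw [e]
    calc _ ≤ C₀ * κ ^ j * ‖iterD s.Di f.symm N x (s.S x w)‖ := hb j _ hx _
      _ ≤ C₀ * κ ^ j * (B * B ^ N * ‖w‖) := by
          gcongr
          exact hB N x w
      _ = C₀ * (B * B ^ N) * κ ^ j * ‖w‖ := by ring
      _ ≤ max (B * B ^ N) (C₀ * (B * B ^ N)) * κ ^ (N + j) * ‖w‖ := by
          have h1 : κ ^ j ≤ κ ^ (N + j) := pow_le_pow_right₀ hκ (by omega)
          have h2 : 0 ≤ κ ^ j := by positivity
          gcongr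
          exact le_max_right _ _

/-- Crude exponent for the whole space. -/
theorem exists_crude_reach (s : Split E f) (hs : s.Hyperbolic) {d : ℕ}
    (hd : ∀ x, Module.finrank ℝ ((s.S x).range) = d) :
    ∃ b₀ : ℝ, ∃ e₁ : ℝ, 0 < e₁ ∧ ReachP f.symm univ e₁ b₀ := by
  obtain ⟨B, hB1, hB⟩ := exists_crude s
  have hB0 : 0 < B := by linarith
  obtain ⟨ε₀, C, l, hD⟩ := exists_dec s hs
  obtain ⟨ρ, Λ, hρ, hΛ, hS⟩ := exists_slow s hs (κ := B) hB0.le hB0.le hB (ε₁ := ε₀) hD.ε_pos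
  obtain ⟨ρ', Λ', φ, hφ⟩ := exists_uplaq s hs hd
  obtain ⟨e₁, he₁, h⟩ := reachP_univ (f := f.symm) (b := Real.log B) hφ hD (Real.log_nonneg hB1)
    hρ hΛ (by
      rw [Real.exp_log hB0]
      exact hS)
  exact ⟨_, e₁, he₁, h⟩

/-- **One side.** The set `V` is a trapping region of `f.symm`. -/
theorem side_reach (hDec : SpecDecOn.{v, u}) (hSlow : SpecSlowOn.{v, u}) (s : Split E f)
    (hs : s.Hyperbolic) {d : ℕ}
    (hd : ∀ x, Module.finrank ℝ ((s.S x).range) = d) {C₀ χ χV b δ : ℝ} (hC₀ : 0 ≤ C₀)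
    (hδ : 0 < δ) (hδχ : δ < χ) (hχV : χ ≤ χV) {V : Set M} (hV : IsOpen V)
    (htrap : f.symm '' closure V ⊆ V)
    (h1 : ∀ (k : ℕ) (x : M) (w : W),
      ‖iterD s.D f k x (s.S x w)‖ ≤ C₀ * Real.exp (-χ) ^ k * ‖w‖)
    (h1V : ∀ (k : ℕ) (x : M), (∀ t < k, f^[t] x ∈ V) → ∀ w : W,
      ‖iterD s.D f k x (s.S x w)‖ ≤ C₀ * Real.exp (-χV) ^ k * ‖w‖)
    (hb : (∀ (k : ℕ), ∀ x ∈ V, ∀ w : W,
      ‖iterD s.Di f.symm k x (s.S x w)‖ ≤ C₀ * Real.exp b ^ k * ‖w‖) ∨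
      ∀ h : ℝ, b + ((d : ℝ) - 1) * χV < h → HasCoversOn f.symm (closure V) h) :
    ∃ ε₀ C : ℝ, Dec f ε₀ C (Real.exp (-(χ - δ))) ∧
      (∀ p, ∀ q ∈ Wl f ε₀ p, ∀ i : ℕ, (∀ t < i, f^[t] p ∈ V) →
        dist (f^[i] q) (f^[i] p) ≤ C * Real.exp (-(χV - δ)) ^ i * dist q p) ∧
      ∃ e₁ : ℝ, 0 < e₁ ∧ ReachP f.symm (f.symm ⁻¹' V) e₁ (max b χV + (d + 1) * δ) := by
  have hχ : 0 < χ := hδ.trans hδχ
  have hχV0 : 0 < χV := hχ.trans_le hχV
  obtain ⟨ε₁, C₁, hD₁⟩ := exists_dec_rate s hs (C₀ := C₀) (m := Real.exp (-χ))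
    (l := Real.exp (-(χ - δ))) (Real.exp_pos _) (Real.exp_lt_exp.2 (by linarith))
    (by rw [Real.exp_lt_one_iff]; linarith) h1
  obtain ⟨ε₂, C₂, hε₂, hC₂, hD₂⟩ := hDec M W E f s hs V C₀ (Real.exp (-χV))
    (Real.exp (-(χV - δ))) (Real.exp_pos _) (Real.exp_lt_exp.2 (by linarith))
    (by rw [Real.exp_lt_one_iff]; linarith) h1V
  set ε₀ : ℝ := min ε₁ ε₂ with hε₀
  have hε₀0 : 0 < ε₀ := lt_min hD₁.ε_pos hε₂
  set C : ℝ := max C₁ C₂ with hC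
  have hD : Dec f ε₀ C (Real.exp (-(χ - δ))) :=
    hD₁.mono hε₀0 (min_le_left _ _) (le_max_left _ _) le_rfl hD₁.l_lt
  have hDV : ∀ p, ∀ q ∈ Wl f ε₀ p, ∀ i : ℕ, (∀ t < i, f^[t] p ∈ V) →
      dist (f^[i] q) (f^[i] p) ≤ C * Real.exp (-(χV - δ)) ^ i * dist q p := by
    intro p q hq i hi
    refine (hD₂ p q (Wl_mono (min_le_right _ _) hq) i hi).trans ?_
    gcongr
    exact le_max_right _ _
  refine ⟨ε₀, C, hD, hDV, ?_⟩
  obtain ⟨ρ', Λ', φ, hφ⟩ := exists_uplaq s hs hd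
  have hdδ : 0 ≤ (d : ℝ) * δ := by positivity
  have hbm : b ≤ max b χV := le_max_left _ _
  have hχm : χV ≤ max b χV := le_max_right _ _
  have hm0 : 0 ≤ max b χV := hχV0.le.trans hχm
  rcases hb with hb | hb
  · obtain ⟨C₃, hC₃, hb₃⟩ := rate_pre s (κ := Real.exp (max b χV)) hC₀
      (Real.one_le_exp hm0) (fun k x hx w => (hb k x hx w).trans (by
        gcongr)) 3
    obtain ⟨e₁, he₁, h⟩ := reachP_of_paths (f := f.symm) hV htrap hφ hD hm0 fun r₀ hr₀ => by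
      obtain ⟨ρ, Λ, hρ, hΛ, H⟩ := hSlow M W E f s hs (f.symm^[3] ⁻¹' V) C₃
        (Real.exp (max b χV)) hC₃ (Real.exp_pos _).le hb₃ ε₀ r₀ hε₀0 hr₀
      exact ⟨ρ, Λ, hρ, hΛ, H⟩
    exact ⟨e₁, he₁, h.mono subset_rfl le_rfl (by nlinarith)⟩
  · exact reachP_of_covers (f := f.symm) (aA := χV - δ) (a := χ - δ)
      (h := b + ((d : ℝ) - 1) * χV + δ) specAvg specEntPre hV htrap hφ hD (by linarith)
      (by linarith) (fun p q hq j => hD.dec p q hq j) hDV (by nlinarith) (by nlinarith)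
      (hb _ (by linarith))

end Pool.Agent.Lib.MP610fe3.H6
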