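import Pool.Agent.Lib.MP_610fe3_an.H6N.Spec
import Pool.Agent.Lib.MP_610fe3_an.H6E.Covers
import Pool.Agent.Lib.MP_610fe3_an.N3.Wrap

/-!
# Cheap chains over a trapping region
-/

open Set Filter Function MeasureTheory
open scoped Topology

namespace Pool.Agent.Lib.MP610fe3.H6

open Cf

universe v

variable {M : Type v} [MetricSpace M] {f : M ≃ₜ M} {u : ℕ}
  {φ : M → EuclideanSpace ℝ (Fin u) → M}

/-- Points of `P` in a common unstable plaque of size `e₁` are joined, for every `m`, by an unstable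
arc with at most `Λ exp (b m)` steps of size `ε` at the time `m`; every `ε` is allowed. -/
def ReachP (f : M ≃ₜ M) (P : Set M) (e₁ b : ℝ) : Prop :=
  ∀ ε : ℝ, 0 < ε → ∃ Λ : ℝ, ∀ (m : ℕ), ∀ p ∈ P, ∀ q ∈ P, q ∈ Wl f.symm e₁ p →
    ∃ K : ℕ, (K : ℝ) ≤ Λ * Real.exp (b * m) ∧ Reach f ε m K p q

theorem ReachP.mono {P P' : Set M} {e₁ e₁' b b' : ℝ} (h : ReachP f P e₁ b) (hP : P' ⊆ P)
    (he : e₁' ≤ e₁) (hb : b ≤ b') : ReachP f P' e₁' b' := by
  intro ε hε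
  obtain ⟨Λ, hΛ⟩ := h ε hε
  refine ⟨max Λ 0, fun m p hp q hq hqp => ?_⟩
  obtain ⟨K, hK, hR⟩ := hΛ m p (hP hp) q (hP hq) (Wl_mono he hqp)
  refine ⟨K, hK.trans ?_, hR⟩
  have h1 : Real.exp (b * m) ≤ Real.exp (b' * m) := by gcongr
  calc Λ * Real.exp (b * m) ≤ max Λ 0 * Real.exp (b * m) := by
        gcongr
        exact le_max_left _ _
    _ ≤ max Λ 0 * Real.exp (b' * m) := by gcongr

/-- Arcs give chains. -/
theorem ReachP.reachW {ε₀ C θ : ℝ} (hD : Dec f.symm ε₀ C θ) {P : Set M} {e₁ b : ℝ}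
    (h : ReachP f P e₁ b) : N3.ReachW f P e₁ b := by
  intro r hr
  have hC := hD.one_le
  have hε₀ := hD.ε_pos
  set ε : ℝ := min (r / C) (ε₀ / (4 * C)) with hεdef
  have hε : 0 < ε := by positivity
  have hε3 : 3 * C * ε < ε₀ := by
    have h1 : ε ≤ ε₀ / (4 * C) := min_le_right _ _
    have h2 : 3 * C * ε ≤ 3 * C * (ε₀ / (4 * C)) := by gcongr
    have h3 : 3 * C * (ε₀ / (4 * C)) = 3 / 4 * ε₀ := by field_simp
    linarith
  obtain ⟨Λ, hΛ⟩ := h ε hε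
  refine ⟨Λ, fun m p hp q hq hqp => ?_⟩
  obtain ⟨K, hK, γ, hγ, h0, h1, c, hc, hc0, hcK, H⟩ := hΛ m p hp q hq hqp
  refine ⟨K, fun i => γ (c i), hK, by simp only [hc0, h0], by simp only [hcK, h1],
    fun i hi k => ?_⟩
  have hci : 0 ≤ c i := by rw [← hc0]; exact hc (Nat.zero_le _)
  have hci' : c (i + 1) ≤ 1 := by rw [← hcK]; exact hc hi
  have hle : c i ≤ c (i + 1) := hc (Nat.le_succ i)
  have h2 := hγ.mem_loc' hD hε hε3 (N := m) hci hci'
    (fun τ hτ τ' hτ' => (H i hi τ hτ τ' hτ').trans (by linarith))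
    (t := c (i + 1)) (t' := c i) ⟨hle, le_rfl⟩ ⟨le_rfl, hle⟩
  have h3 := hD.dec _ _ h2 k
  have h4 := H i hi _ ⟨hle, le_rfl⟩ _ ⟨le_rfl, hle⟩
  have h5 : θ ^ k ≤ 1 := pow_le_one₀ hD.l_pos.le hD.l_lt.le
  have h6 : 0 ≤ θ ^ k := pow_nonneg hD.l_pos.le _
  calc dist (f.symm^[k] (f^[m] (γ (c (i + 1))))) (f.symm^[k] (f^[m] (γ (c i))))
      ≤ C * θ ^ k * dist (f^[m] (γ (c (i + 1)))) (f^[m] (γ (c i))) := h3
    _ ≤ C * 1 * ε := by gcongr
    _ ≤ C * 1 * (r / C) := by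
        gcongr
        exact min_le_left _ _
    _ = r := by field_simp

/-- Chains of bounded length: from arcs between very close points of `P₂` to arcs between close
points of `P`. -/
theorem reachP_of_fine {P P₂ : Set M} (hnear : ∃ r : ℝ, 0 < r ∧ ∀ x ∈ P, Metric.closedBall x r ⊆ P₂)
    {ρ₀ L ε₀ C θ b : ℝ} (hb : 0 ≤ b) (hφ : UPlaq f u ρ₀ L φ) (hD : Dec f.symm ε₀ C θ)
    (H : ∀ ε : ℝ, 0 < ε → ∃ Λ ε₄ : ℝ, 0 ≤ Λ ∧ 0 < ε₄ ∧ ∀ (m : ℕ), ∀ p ∈ P₂, ∀ p' ∈ P₂,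
      p' ∈ Wl f.symm ε₄ p → ∃ K : ℕ, (K : ℝ) ≤ Λ * Real.exp (b * m) ∧ Reach f ε m K p p') :
    ∃ e₁ : ℝ, 0 < e₁ ∧ ReachP f P e₁ b := by
  obtain ⟨r₀, hr₀, hnear⟩ := hnear
  have hC := hD.one_le
  have hL := hφ.one_le
  have hε₀ := hD.ε_pos
  obtain ⟨r₁, hr₁, hr₁ρ, hmem⟩ := hφ.mem (min r₀ (ε₀ / 2)) (by positivity)
  obtain ⟨e₁, he₁, honto⟩ := hφ.onto r₁ hr₁
  refine ⟨e₁, he₁, fun ε hε => ?_⟩
  obtain ⟨Λ, ε₄, hΛ, hε₄, HΛ⟩ := H ε hε
  obtain ⟨J, hJ⟩ := exists_nat_gt (C * (L * r₁) / ε₄)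
  have hJ0 : (0 : ℝ) < J := lt_of_le_of_lt (by positivity) hJ
  refine ⟨J * Λ + 1, fun m p hp q hq hqp => ?_⟩
  obtain ⟨a, ha, rfl⟩ := honto p q hqp
  rw [mem_closedBall_zero_iff] at ha
  have hta : ∀ t ∈ Icc (0 : ℝ) 1, t • a ∈ Metric.closedBall (0 : EuclideanSpace ℝ (Fin u)) r₁ := by
    intro t ht
    rw [mem_closedBall_zero_iff, norm_smul, Real.norm_eq_abs, abs_of_nonneg ht.1]
    have := norm_nonneg a
    nlinarith [ht.2]
  set y : ℕ → M := fun i => φ p (((i : ℝ) / J) • a) with hy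
  have hi01 : ∀ i ≤ J, (i : ℝ) / J ∈ Icc (0 : ℝ) 1 := by
    intro i hi
    refine ⟨by positivity, ?_⟩
    rw [div_le_one hJ0]
    exact_mod_cast hi
  have hyP : ∀ i ≤ J, y i ∈ P₂ := by
    intro i hi
    refine hnear p hp ?_
    rw [Metric.mem_closedBall]
    exact (Wl_dist (hmem p _ (hta _ (hi01 i hi)))).trans (min_le_left _ _)
  have hystep : ∀ i < J, y (i + 1) ∈ Wl f.symm ε₄ (y i) := by
    intro i hi k
    have h1 := hta _ (hi01 i hi.le)
    have h2 := hta _ (hi01 (i + 1) hi)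
    have h3 : y (i + 1) ∈ Wl f.symm ε₀ (y i) := by
      have h4 := Wl_trans (Wl_comm (Wl_mono (min_le_right _ _) (hmem p _ h1)))
        (Wl_mono (min_le_right _ _) (hmem p _ h2))
      rwa [add_halves] at h4
    refine (hD.dec _ _ h3 k).trans ?_
    have h4 := hφ.upper p _ (Metric.closedBall_subset_closedBall hr₁ρ h2) _
      (Metric.closedBall_subset_closedBall hr₁ρ h1)
    have h5 : dist ((((i + 1 : ℕ) : ℝ) / J) • a) (((i : ℝ) / J) • a) ≤ r₁ / J := by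
      rw [dist_eq_norm, ← sub_smul, norm_smul, Real.norm_eq_abs]
      have h6 : ((i + 1 : ℕ) : ℝ) / J - (i : ℝ) / J = 1 / J := by
        push_cast
        ring
      rw [h6, abs_of_nonneg (by positivity)]
      calc 1 / (J : ℝ) * ‖a‖ ≤ 1 / J * r₁ := by gcongr
        _ = r₁ / J := by ring
    have h6 : θ ^ k ≤ 1 := pow_le_one₀ hD.l_pos.le hD.l_lt.le
    have h7 : 0 ≤ θ ^ k := pow_nonneg hD.l_pos.le _
    calc C * θ ^ k * dist (y (i + 1)) (y i) ≤ C * 1 * (L * (r₁ / J)) := by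
          have h8 : dist (y (i + 1)) (y i) ≤ L * (r₁ / J) := h4.trans (by gcongr)
          gcongr
      _ = C * (L * r₁) / ε₄ / J * ε₄ := by field_simp
      _ ≤ 1 * ε₄ := by
          gcongr
          rw [div_le_one hJ0]
          exact hJ.le
      _ = ε₄ := one_mul _
  have key : ∀ i ≤ J, ∃ K : ℕ, (K : ℝ) ≤ i * (Λ * Real.exp (b * m)) + 1 ∧
      Reach f ε m K p (y i) := by
    intro i
    induction i with
    | zero =>
      intro _
      refine ⟨1, by simp, ?_⟩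
      have : y 0 = p := by simp [hy, hφ.zero]
      rw [this]
      exact Reach.refl hε.le p
    | succ i ih =>
      intro hi
      obtain ⟨K, hK, hR⟩ := ih (by omega)
      obtain ⟨K', hK', hR'⟩ := HΛ m (y i) (hyP i (by omega)) (y (i + 1)) (hyP (i + 1) hi)
        (hystep i hi)
      refine ⟨K + K', ?_, hR.trans hR'⟩
      push_cast
      linarith
  obtain ⟨K, hK, hR⟩ := key J le_rfl
  have hyJ : y J = φ p a := by
    simp only [hy]
    rw [div_self hJ0.ne', one_smul]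
  rw [hyJ] at hR
  refine ⟨K, ?_, hR⟩
  have h1 : 1 ≤ Real.exp (b * m) := Real.one_le_exp (by positivity)
  calc (K : ℝ) ≤ J * (Λ * Real.exp (b * m)) + 1 := hK
    _ ≤ (J * Λ + 1) * Real.exp (b * m) := by nlinarith

/-- Contraction, at the rate `α`, of the pairs whose first point is in `F`. -/
def ContrOn (f : M ≃ₜ M) (F : Set M) (ε₀ C' α : ℝ) : Prop :=
  ∀ y ∈ F, ∀ (m : ℕ) (y' : M), f^[m] y' ∈ Wl f.symm ε₀ (f^[m] y) →
    dist y y' ≤ C' * Real.exp (-α) ^ m * dist (f^[m] y) (f^[m] y')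

/-- Covers of `F` by `exp (h m)` sets which stay small up to time `m` give cheap covers of the
plaques contained in `F`. -/
theorem cost_of_cover_on {P₂ F : Set M} {ρ₀ L ε₀ C' α h b : ℝ} (hφ : UPlaq f u ρ₀ L φ)
    (hα : 0 ≤ α) (hε₀ : 0 < ε₀) (hC' : 1 ≤ C') (hcontr : ContrOn f F ε₀ C' α)
    (hnear : ∃ r : ℝ, 0 < r ∧ ∀ x ∈ P₂, Metric.closedBall x r ⊆ F)
    (hbh : h - ((u : ℝ) - 1) * α ≤ b) (hcov : HasCoversOn f F h)
    (ε₃ : ℝ) (hε₃ : 0 < ε₃) : ∃ ρ₁ : ℝ, 0 < ρ₁ ∧ ∀ ρ : ℝ, 0 < ρ → ρ ≤ ρ₁ →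
      ∃ Λ : ℝ, Cost f u φ P₂ ε₃ ρ b Λ := by
  obtain ⟨rn, hrn, hnear⟩ := hnear
  have hL := hφ.one_le
  set ε₅ : ℝ := min ε₃ ε₀ with hε₅
  have hε₅0 : 0 < ε₅ := lt_min hε₃ hε₀
  obtain ⟨Λ, hΛ⟩ := hcov ε₅ hε₅0
  obtain ⟨r₁, hr₁, hr₁ρ, hmem⟩ := hφ.mem (min (ε₅ / 2) rn) (by positivity)
  refine ⟨r₁, hr₁, fun ρ hρ hρr => ?_⟩
  have hpair : ∀ x, ∀ a ∈ Metric.closedBall 0 ρ, ∀ a' ∈ Metric.closedBall 0 ρ,
      φ x a' ∈ Wl f.symm ε₅ (φ x a) := by
    intro x a ha a' ha'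
    have := Wl_trans (Wl_comm (Wl_mono (min_le_left _ _)
      (hmem x a (Metric.closedBall_subset_closedBall hρr ha))))
      (Wl_mono (min_le_left _ _) (hmem x a' (Metric.closedBall_subset_closedBall hρr ha')))
    rwa [add_halves] at this
  have hF : ∀ x ∈ P₂, ∀ a ∈ Metric.closedBall 0 ρ, φ x a ∈ F := by
    intro x hx a ha
    refine hnear x hx ?_
    rw [Metric.mem_closedBall]
    exact (Wl_dist (hmem x a (Metric.closedBall_subset_closedBall hρr ha))).trans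
      (min_le_right _ _)
  refine ⟨max Λ 0 * (L * (C' * ε₅)) ^ (u - 1), fun m x hxP => ?_⟩
  obtain ⟨N, D, hN, hDc, hDu, hDm⟩ := hΛ m
  have hexp0 : 0 < Real.exp (-α) ^ m := by positivity
  refine ⟨N, fun i => Metric.closedBall 0 ρ ∩ φ x ⁻¹' D i,
    fun _ => L * (C' * Real.exp (-α) ^ m * ε₅),
    fun i => ?_, ?_, fun i => by positivity, fun i a ha b hb => ?_, fun i a ha b hb k hk => ?_, ?_⟩
  · exact ((hφ.continuousOn x).mono
      (Metric.closedBall_subset_closedBall (hρr.trans hr₁ρ))).preimage_isClosed_of_isClosed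
      Metric.isClosed_closedBall (hDc i)
  · intro a ha
    have : φ x a ∈ ⋃ i, D i := hDu (hF x hxP a ha)
    obtain ⟨i, hi⟩ := mem_iUnion.1 this
    exact mem_iUnion.2 ⟨i, ha, hi⟩
  · have h1 := wl_of_bowen (hpair x a ha.1 b hb.1) m
      (fun k hk => hDm i _ hb.2 _ ha.2 k hk)
    have h2 := hcontr _ (hF x hxP a ha.1) m _ (Wl_mono (min_le_right _ _) h1)
    have h3 := hφ.lower x a (Metric.closedBall_subset_closedBall (hρr.trans hr₁ρ) ha.1) b
      (Metric.closedBall_subset_closedBall (hρr.trans hr₁ρ) hb.1)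
    have h4 := Wl_dist h1
    rw [dist_comm] at h4
    refine h3.trans ?_
    have h5 : dist (φ x a) (φ x b) ≤ C' * Real.exp (-α) ^ m * ε₅ := by
      refine h2.trans ?_
      gcongr
    exact mul_le_mul_of_nonneg_left h5 (by linarith)
  · exact (hDm i _ ha.2 _ hb.2 k hk).trans (min_le_left _ _)
  · rw [Finset.sum_const, Finset.card_univ, Fintype.card_fin, nsmul_eq_mul]
    have e1 : (L * (C' * Real.exp (-α) ^ m * ε₅)) ^ (u - 1) =
        (L * (C' * ε₅)) ^ (u - 1) * Real.exp (-(α * ((u - 1 : ℕ) : ℝ) * m)) := by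
      have : L * (C' * Real.exp (-α) ^ m * ε₅) = (L * (C' * ε₅)) * Real.exp (-α) ^ m := by ring
      rw [this, mul_pow, ← Real.exp_nat_mul, ← Real.exp_nat_mul]
      congr 2
      ring
    rw [e1]
    have e2 : Real.exp (h * m) * Real.exp (-(α * ((u - 1 : ℕ) : ℝ) * m)) ≤ Real.exp (b * m) := by
      rw [← Real.exp_add]
      apply Real.exp_le_exp.2
      have h1 : (u : ℝ) - 1 ≤ ((u - 1 : ℕ) : ℝ) := by
        rcases Nat.eq_zero_or_pos u with h0 | h0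
        · subst h0
          simp
        · rw [Nat.cast_sub h0, Nat.cast_one]
      have h2 : h - ((u - 1 : ℕ) : ℝ) * α ≤ b := by nlinarith
      have h3 : (0 : ℝ) ≤ m := Nat.cast_nonneg m
      have h4 : (h - ((u - 1 : ℕ) : ℝ) * α) * m ≤ b * m := mul_le_mul_of_nonneg_right h2 h3
      linarith
    have h6 : (N : ℝ) ≤ max Λ 0 * Real.exp (h * m) := hN.trans (by
      gcongr
      exact le_max_left _ _)
    calc (N : ℝ) * ((L * (C' * ε₅)) ^ (u - 1) * Real.exp (-(α * ((u - 1 : ℕ) : ℝ) * m)))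
        ≤ max Λ 0 * Real.exp (h * m) *
          ((L * (C' * ε₅)) ^ (u - 1) * Real.exp (-(α * ((u - 1 : ℕ) : ℝ) * m))) := by gcongr
      _ = max Λ 0 * (L * (C' * ε₅)) ^ (u - 1) *
          (Real.exp (h * m) * Real.exp (-(α * ((u - 1 : ℕ) : ℝ) * m))) := by ring
      _ ≤ max Λ 0 * (L * (C' * ε₅)) ^ (u - 1) * Real.exp (b * m) := by gcongr

/-- The contraction of pairs based in a preimage of `closure U`. -/
theorem contrOn_of_local {U : Set M} {ε₀ C a aA : ℝ} (hC : 1 ≤ C) (ha : 0 ≤ a) (haA : 0 ≤ aA)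
    (hU : f '' closure U ⊆ U)
    (hun : ∀ p, ∀ q ∈ Wl f.symm ε₀ p, ∀ j : ℕ,
      dist (f.symm^[j] q) (f.symm^[j] p) ≤ C * Real.exp (-a) ^ j * dist q p)
    (hunA : ∀ p, ∀ q ∈ Wl f.symm ε₀ p, ∀ i : ℕ, (∀ t < i, f.symm^[t] p ∈ U) →
      dist (f.symm^[i] q) (f.symm^[i] p) ≤ C * Real.exp (-aA) ^ i * dist q p)
    (N : ℕ) : ContrOn f (f^[N] ⁻¹' closure U) ε₀ (C * C * Real.exp aA ^ (N + 1)) aA := by
  have hfwd : ∀ (k : ℕ) (z : M), z ∈ closure U → f^[k] z ∈ closure U := by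
    intro k
    induction k with
    | zero => intro z hz; simpa using hz
    | succ k ih =>
      intro z hz
      rw [iterate_succ_apply]
      exact ih _ (subset_closure (hU ⟨z, hz, rfl⟩))
  have hexp : Real.exp aA * Real.exp (-aA) = 1 := by
    rw [← Real.exp_add, add_neg_cancel, Real.exp_zero]
  have hone : 1 ≤ Real.exp aA := Real.one_le_exp haA
  have hea : Real.exp (-a) ≤ 1 := by
    rw [Real.exp_le_one_iff]
    linarith
  intro y hy m y' hy'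
  have hd0 : 0 ≤ dist (f^[m] y) (f^[m] y') := dist_nonneg
  rcases le_total m (N + 1) with hm | hm
  · have h1 := hun _ _ hy' m
    rw [Cf.symm_iterate_iterate, Cf.symm_iterate_iterate, dist_comm y' y,
      dist_comm (f^[m] y')] at h1
    refine h1.trans (mul_le_mul_of_nonneg_right ?_ hd0)
    have h2 : Real.exp (-a) ^ m ≤ 1 := pow_le_one₀ (Real.exp_pos _).le hea
    have h3 : 1 ≤ Real.exp aA ^ (N + 1) * Real.exp (-aA) ^ m := by
      obtain ⟨j, hj⟩ := Nat.exists_eq_add_of_le hm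
      rw [hj, pow_add, mul_comm (Real.exp aA ^ m), mul_assoc, ← mul_pow, hexp, one_pow, mul_one]
      exact one_le_pow₀ hone
    have h4 : 0 ≤ Real.exp aA ^ (N + 1) * Real.exp (-aA) ^ m := by positivity
    calc C * Real.exp (-a) ^ m ≤ C * 1 := by gcongr
      _ ≤ C * (C * (Real.exp aA ^ (N + 1) * Real.exp (-aA) ^ m)) := by
          gcongr
          nlinarith
      _ = C * C * Real.exp aA ^ (N + 1) * Real.exp (-aA) ^ m := by ring
  · obtain ⟨i, rfl⟩ := Nat.exists_eq_add_of_le hm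
    -- `f^[N + 1 + i]`, first `i` steps in `U`
    have hloc : ∀ t < i, f.symm^[t] (f^[N + 1 + i] y) ∈ U := by
      intro t ht
      rw [Cf.symm_iterate_iterate_of_le f (by omega)]
      have e : N + 1 + i - t = (i - t) + 1 + N := by omega
      rw [e, iterate_add_apply, iterate_succ_apply']
      exact hU ⟨_, hfwd _ _ hy, rfl⟩
    have h1 := hunA _ _ hy' i hloc
    have e1 : ∀ z : M, f.symm^[i] (f^[N + 1 + i] z) = f^[N + 1] z := by
      intro z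
      rw [Cf.symm_iterate_iterate_of_le f (by omega)]
      congr 1
      omega
    rw [e1, e1] at h1
    have hw : f^[N + 1] y' ∈ Wl f.symm ε₀ (f^[N + 1] y) := by
      intro k
      have := hy' (i + k)
      rw [add_comm i k, iterate_add_apply f.symm k i, iterate_add_apply f.symm k i, e1, e1] at this
      exact this
    have h2 := hun _ _ hw (N + 1)
    rw [Cf.symm_iterate_iterate, Cf.symm_iterate_iterate] at h2
    have h3 : Real.exp (-a) ^ (N + 1) ≤ 1 := pow_le_one₀ (Real.exp_pos _).le hea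
    rw [dist_comm y y', dist_comm (f^[N + 1 + i] y)]
    have hd : 0 ≤ dist (f^[N + 1] y') (f^[N + 1] y) := dist_nonneg
    calc dist y' y ≤ C * Real.exp (-a) ^ (N + 1) * dist (f^[N + 1] y') (f^[N + 1] y) := h2
      _ ≤ C * 1 * dist (f^[N + 1] y') (f^[N + 1] y) := by gcongr
      _ ≤ C * 1 * (C * Real.exp (-aA) ^ i * dist (f^[N + 1 + i] y') (f^[N + 1 + i] y)) := by
          gcongr
      _ = C * C * Real.exp aA ^ (N + 1) * Real.exp (-aA) ^ (N + 1 + i) *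
          dist (f^[N + 1 + i] y') (f^[N + 1 + i] y) := by
          rw [pow_add (Real.exp (-aA)) (N + 1) i]
          have : Real.exp aA ^ (N + 1) * Real.exp (-aA) ^ (N + 1) = 1 := by
            rw [← mul_pow, hexp, one_pow]
          calc C * 1 * (C * Real.exp (-aA) ^ i * dist (f^[N + 1 + i] y') (f^[N + 1 + i] y))
              = C * C * 1 * Real.exp (-aA) ^ i *
                dist (f^[N + 1 + i] y') (f^[N + 1 + i] y) := by ring
            _ = C * C * (Real.exp aA ^ (N + 1) * Real.exp (-aA) ^ (N + 1)) * Real.exp (-aA) ^ i *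
                dist (f^[N + 1 + i] y') (f^[N + 1 + i] y) := by rw [this]
            _ = _ := by ring

/-- A neighbourhood of a compact set in an open set. -/
theorem exists_near {X : Type*} [MetricSpace X] [CompactSpace X] {A O : Set X} (hA : IsClosed A)
    (hO : IsOpen O) (hAO : A ⊆ O) :
    ∃ r : ℝ, 0 < r ∧ ∀ x ∈ A, Metric.closedBall x r ⊆ O := by
  obtain ⟨δ, hδ, h⟩ := hA.isCompact.exists_cthickening_subset_open hO hAO
  exact ⟨δ, hδ, fun x hx => (Metric.closedBall_subset_cthickening hx δ).trans h⟩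

/-- A path with controlled growth gives a cheap arc. -/
theorem reach_of_path {ε₁ Λ b ε ε₀ C θ : ℝ} (hΛ : 0 ≤ Λ) (hε : 0 < ε) (hb : 0 ≤ b)
    (hε₁ : ε₁ ≤ ε₀) (hD : Dec f.symm ε₀ C θ) {m : ℕ} {γ : ℝ → M}
    (hγc : ContinuousOn γ (Icc 0 1))
    (hmut : ∀ t ∈ Icc (0 : ℝ) 1, ∀ t' ∈ Icc (0 : ℝ) 1, γ t ∈ Wl f.symm ε₁ (γ t'))
    (hgrow : ∀ t ∈ Icc (0 : ℝ) 1, ∀ t' ∈ Icc (0 : ℝ) 1,
      dist (f^[m] (γ t)) (f^[m] (γ t')) ≤ Λ * Real.exp (b * m) * |t - t'|) :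
    ∃ K : ℕ, (K : ℝ) ≤ (Λ / ε + 1) * Real.exp (b * m) ∧ Reach f ε m K (γ 0) (γ 1) := by
  have hexp : 1 ≤ Real.exp (b * m) := Real.one_le_exp (by positivity)
  obtain ⟨K, hK⟩ : ∃ K : ℕ, K = ⌊Λ * Real.exp (b * m) / ε⌋₊ + 1 := ⟨_, rfl⟩
  have hK1 : Λ * Real.exp (b * m) / ε < K := by
    rw [hK]
    push_cast
    exact Nat.lt_floor_add_one _
  have hK2 : (K : ℝ) ≤ (Λ / ε + 1) * Real.exp (b * m) := by
    have h2 := Nat.floor_le (show 0 ≤ Λ * Real.exp (b * m) / ε by positivity)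
    rw [hK]
    push_cast
    have h3 : Λ * Real.exp (b * m) / ε = Λ / ε * Real.exp (b * m) := by ring
    rw [h3] at h2 ⊢
    linarith
  have hKpos : (0 : ℝ) < K := lt_of_le_of_lt (by positivity) hK1
  refine ⟨K, hK2, γ, ⟨hγc, fun ε' hε' => ?_⟩, rfl, rfl, ?_⟩
  · obtain ⟨N, hN⟩ := exists_pow_le (C := C) (ε := ε₀) hD.l_pos hD.l_lt hε'
    refine ⟨N, fun n hn t ht t' ht' => ?_⟩
    have h2 := hD.dec _ _ (Wl_mono hε₁ (hmut t ht t' ht')) n
    refine h2.trans (le_trans ?_ hN)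
    have h3 : θ ^ n ≤ θ ^ N := pow_le_pow_of_le_one hD.l_pos.le hD.l_lt.le hn
    have h4 : 0 ≤ θ ^ n := pow_nonneg hD.l_pos.le _
    have h5 : 0 ≤ θ ^ N := pow_nonneg hD.l_pos.le _
    have h6 : dist (γ t) (γ t') ≤ ε₀ := (Wl_dist (hmut t ht t' ht')).trans hε₁
    have h7 := hD.one_le
    gcongr
  · refine ⟨fun i => min ((i : ℝ) / K) 1, fun i j hij => ?_, by simp, ?_,
      fun i hi t ht t' ht' => ?_⟩
    · refine min_le_min ?_ le_rfl
      have : (i : ℝ) ≤ j := by exact_mod_cast hij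
      gcongr
    · simp only [div_self hKpos.ne', min_self]
    · have hi1 : ((i : ℝ) + 1) ≤ K := by exact_mod_cast hi
      have e1 : min ((i : ℝ) / K) 1 = (i : ℝ) / K := by
        apply min_eq_left
        rw [div_le_one hKpos]
        linarith
      have e2 : min (((i + 1 : ℕ) : ℝ) / K) 1 = ((i : ℝ) + 1) / K := by
        push_cast
        apply min_eq_left
        rw [div_le_one hKpos]
        exact hi1
      simp only [e1, e2] at ht ht'
      have h01 : ∀ {t : ℝ}, t ∈ Icc ((i : ℝ) / K) (((i : ℝ) + 1) / K) → t ∈ Icc (0 : ℝ) 1 := by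
        intro t ht
        refine ⟨le_trans (by positivity) ht.1, ht.2.trans ?_⟩
        rw [div_le_one hKpos]
        exact hi1
      refine (hgrow t (h01 ht) t' (h01 ht')).trans ?_
      have h2 : |t - t'| ≤ 1 / K := by
        have h3 : ((i : ℝ) + 1) / K - (i : ℝ) / K = 1 / K := by ring
        rw [abs_le]
        constructor <;> linarith [ht.1, ht.2, ht'.1, ht'.2]
      calc Λ * Real.exp (b * m) * |t - t'| ≤ Λ * Real.exp (b * m) * (1 / K) := by gcongr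
        _ = Λ * Real.exp (b * m) / ε / K * ε := by field_simp
        _ ≤ 1 * ε := by
          gcongr
          rw [div_le_one hKpos]
          exact hK1.le
        _ = ε := one_mul ε

/-- The preimages of a trapping region. -/
theorem trap_near [CompactSpace M] {U : Set M} (hU : IsOpen U) (htrap : f '' closure U ⊆ U)
    (N : ℕ) : ∃ r : ℝ, 0 < r ∧ ∀ x ∈ f^[N] ⁻¹' closure U,
      Metric.closedBall x r ⊆ f^[N + 1] ⁻¹' U := by
  refine exists_near (isClosed_closure.preimage (f.continuous.iterate N))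
    (hU.preimage (f.continuous.iterate (N + 1))) fun x hx => ?_
  rw [mem_preimage, iterate_succ_apply']
  exact htrap ⟨_, hx, rfl⟩

/-- **Cheap arcs over a trapping region, from the growth of covers.** -/
theorem reachP_of_covers [CompactSpace M] (hAvg : SpecAvg) (hEP : SpecEntPre.{v}) {U : Set M} (hU : IsOpen U) (htrap : f '' closure U ⊆ U)
    {ρ₀ L ε₀ C θ a aA h b : ℝ} (hφ : UPlaq f u ρ₀ L φ) (hD : Dec f.symm ε₀ C θ)
    (ha : 0 ≤ a) (haA : 0 ≤ aA)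
    (hun : ∀ p, ∀ q ∈ Wl f.symm ε₀ p, ∀ j : ℕ,
      dist (f.symm^[j] q) (f.symm^[j] p) ≤ C * Real.exp (-a) ^ j * dist q p)
    (hunA : ∀ p, ∀ q ∈ Wl f.symm ε₀ p, ∀ i : ℕ, (∀ t < i, f.symm^[t] p ∈ U) →
      dist (f.symm^[i] q) (f.symm^[i] p) ≤ C * Real.exp (-aA) ^ i * dist q p)
    (hb : 0 < b) (hbh : h - ((u : ℝ) - 1) * aA ≤ b) (hcov : HasCoversOn f (closure U) h) :
    ∃ e₁ : ℝ, 0 < e₁ ∧ ReachP f (f ⁻¹' U) e₁ b := by
  have hC := hD.one_le
  have h3 : HasCoversOn f (f^[3] ⁻¹' closure U) h :=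
    hEP M f f.continuous _ h (hEP M f f.continuous _ h (hEP M f f.continuous _ h hcov))
  obtain ⟨r₂, hr₂, hnear₂⟩ := trap_near hU htrap 2
  obtain ⟨r₁, hr₁, hnear₁⟩ := trap_near hU htrap 1
  refine reachP_of_fine (P₂ := f^[2] ⁻¹' U) ⟨r₁, hr₁, fun x hx => hnear₁ x (subset_closure hx)⟩
    hb.le hφ hD fun ε hε => ?_
  refine reach_of_cost hAvg (fun x hx => ?_) hD hφ hε hb
    (cost_of_cover_on hφ haA hD.ε_pos ?_
      (contrOn_of_local hC ha haA htrap hun hunA 3) ⟨r₂, hr₂, fun x hx =>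
        (hnear₂ x (subset_closure hx)).trans (preimage_mono subset_closure)⟩ hbh h3)
  · have h5 : f^[2] (f x) = f (f^[2] x) := by rw [← iterate_succ_apply, iterate_succ_apply']
    rw [mem_preimage, h5]
    exact htrap ⟨_, subset_closure hx, rfl⟩
  · have h5 : 1 ≤ Real.exp aA ^ (3 + 1) := one_le_pow₀ (Real.one_le_exp haA)
    nlinarith [mul_le_mul hC hC zero_le_one (zero_le_one.trans hC)]

/-- **Cheap arcs over a trapping region, from paths with controlled growth.** -/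
theorem reachP_of_paths [CompactSpace M] {U : Set M} (hU : IsOpen U) (htrap : f '' closure U ⊆ U)
    {ρ₀ L ε₀ C θ b : ℝ} (hφ : UPlaq f u ρ₀ L φ) (hD : Dec f.symm ε₀ C θ) (hb : 0 ≤ b)
    (H : ∀ r₀ : ℝ, 0 < r₀ → ∃ ρ Λ : ℝ, 0 < ρ ∧ 0 ≤ Λ ∧
      ∀ x, Metric.closedBall x r₀ ⊆ f^[3] ⁻¹' U → ∀ y ∈ Wl f.symm ρ x, ∃ γ : ℝ → M,
        ContinuousOn γ (Icc 0 1) ∧ γ 0 = x ∧ γ 1 = y ∧
        (∀ t ∈ Icc (0 : ℝ) 1, ∀ t' ∈ Icc (0 : ℝ) 1, γ t ∈ Wl f.symm ε₀ (γ t')) ∧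
        ∀ n : ℕ, ∀ t ∈ Icc (0 : ℝ) 1, ∀ t' ∈ Icc (0 : ℝ) 1,
          dist (f^[n] (γ t)) (f^[n] (γ t')) ≤ Λ * Real.exp b ^ n * |t - t'|) :
    ∃ e₁ : ℝ, 0 < e₁ ∧ ReachP f (f ⁻¹' U) e₁ b := by
  obtain ⟨r₂, hr₂, hnear₂⟩ := trap_near hU htrap 2
  obtain ⟨r₁, hr₁, hnear₁⟩ := trap_near hU htrap 1
  obtain ⟨ρ, Λ, hρ, hΛ, H⟩ := H r₂ hr₂
  refine reachP_of_fine (P₂ := f^[2] ⁻¹' U) ⟨r₁, hr₁, fun x hx => hnear₁ x (subset_closure hx)⟩
    hb hφ hD fun ε hε => ⟨Λ / ε + 1, ρ, by positivity, hρ, fun m p hp p' hp' hpp' => ?_⟩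
  obtain ⟨γ, hγ, h0, h1, hmut, hgrow⟩ := H p (hnear₂ p (subset_closure hp)) p' hpp'
  obtain ⟨K, hK, hR⟩ := reach_of_path hΛ hε hb le_rfl hD hγ hmut
    (fun t ht t' ht' => (hgrow m t ht t' ht').trans (le_of_eq (by
      rw [← Real.exp_nat_mul, mul_comm (m : ℝ) b])))
  rw [h0, h1] at hR
  exact ⟨K, hK, hR⟩

/-- Crude exponents. -/
theorem reachP_univ [CompactSpace M] {ρ₀ L ε₀ C θ b ρ Λ : ℝ} (hφ : UPlaq f u ρ₀ L φ)
    (hD : Dec f.symm ε₀ C θ) (hb : 0 ≤ b) (hρ : 0 < ρ) (hΛ : 0 ≤ Λ)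
    (h : Slow f.symm ρ ε₀ Λ (Real.exp b)) :
    ∃ e₁ : ℝ, 0 < e₁ ∧ ReachP f univ e₁ b := by
  refine reachP_of_fine (P₂ := univ) ⟨1, one_pos, fun x _ => subset_univ _⟩
    hb hφ hD fun ε hε => ?_
  obtain ⟨Λ', ε₄, hΛ', hε₄, H⟩ := reachExp_of_slow hρ hΛ hε hb le_rfl hD h
  exact ⟨Λ', ε₄, hΛ', hε₄, fun m p _ p' _ hp' => H m p p' hp'⟩

end Pool.Agent.Lib.MP610fe3.H6
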