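import Pool.Agent.Lib.MP_610fe3_an.H6N.Side

/-!
# Location refined pinching: the theorem for splittings
-/

open Set Filter Function
open scoped Topology

namespace Pool.Agent.Lib.MP610fe3.H6

open Cf

universe u v

variable {M : Type v} {W : Type u} [MetricSpace M] [CompactSpace M] [NormedAddCommGroup W]
  [InnerProductSpace ℝ W] [FiniteDimensional ℝ W] {E : Emb M W} {f : M ≃ₜ M}

omit [CompactSpace M] in
/-- The complement of a trapping region is a trapping region of the inverse. -/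
theorem trap_dual {U : Set M} (hU : IsOpen U) (htrap : f '' closure U ⊆ U) :
    f.symm '' closure (closure U)ᶜ ⊆ (closure U)ᶜ := by
  rintro _ ⟨x, hx, rfl⟩ hcon
  have h1 : x ∈ U := by
    have := htrap ⟨_, hcon, rfl⟩
    rwa [Homeomorph.apply_symm_apply] at this
  obtain ⟨y, hy, hy'⟩ := mem_closure_iff.1 hx U hU h1
  exact hy' (subset_closure hy)

/-- The inequality up to `δ`. -/
theorem split_trap_delta (hDec : SpecDecOn.{v, u}) (hSlow : SpecSlowOn.{v, u}) (s : Split E f)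
    (hs : s.Hyperbolic) {ds du : ℕ} (hds : ∀ x, Module.finrank ℝ ((s.S x).range) = ds)
    (hdu : ∀ x, Module.finrank ℝ ((s.U x).range) = du) {C₀ χs χu χR χA bR bA δ : ℝ}
    (hC₀ : 0 ≤ C₀) (hδ : 0 < δ) (hδs : δ < χs) (hδu : δ < χu) (hχR : χs ≤ χR) (hχA : χu ≤ χA)
    {U : Set M} (hU : IsOpen U) (htrap : f '' closure U ⊆ U) (hfr : (frontier U).Nonempty)
    (h1 : ∀ (k : ℕ) (x : M) (w : W),
      ‖iterD s.D f k x (s.S x w)‖ ≤ C₀ * Real.exp (-χs) ^ k * ‖w‖)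
    (h2 : ∀ (k : ℕ) (x : M) (w : W),
      ‖iterD s.Di f.symm k x (s.U x w)‖ ≤ C₀ * Real.exp (-χu) ^ k * ‖w‖)
    (h1R : ∀ (k : ℕ) (x : M), (∀ t < k, f^[t] x ∈ (closure U)ᶜ) → ∀ w : W,
      ‖iterD s.D f k x (s.S x w)‖ ≤ C₀ * Real.exp (-χR) ^ k * ‖w‖)
    (h2A : ∀ (k : ℕ) (x : M), (∀ t < k, f.symm^[t] x ∈ U) → ∀ w : W,
      ‖iterD s.Di f.symm k x (s.U x w)‖ ≤ C₀ * Real.exp (-χA) ^ k * ‖w‖)
    (hbR : (∀ (k : ℕ), ∀ x ∈ (closure U)ᶜ, ∀ w : W,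
      ‖iterD s.Di f.symm k x (s.S x w)‖ ≤ C₀ * Real.exp bR ^ k * ‖w‖) ∨
      ∀ h : ℝ, bR + ((ds : ℝ) - 1) * χR < h → HasCoversOn f.symm (closure (closure U)ᶜ) h)
    (hbA : (∀ (k : ℕ), ∀ x ∈ U, ∀ w : W,
      ‖iterD s.D f k x (s.U x w)‖ ≤ C₀ * Real.exp bA ^ k * ‖w‖) ∨
      ∀ h : ℝ, bA + ((du : ℝ) - 1) * χA < h → HasCoversOn f (closure U) h) :
    (χu - δ) * (χs - δ) ≤
      (max bA χA + (du + 1) * δ - (χA - δ)) * (max bR χR + (ds + 1) * δ - (χs - δ)) := by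
  obtain ⟨ε₁, C₁, hD₁, -, e₁, he₁, hR₁⟩ := side_reach hDec hSlow s hs hds hC₀ hδ hδs hχR
    isClosed_closure.isOpen_compl (trap_dual hU htrap) h1 h1R hbR
  obtain ⟨ε₂, C₂, hD₂, hA₂, e₂, he₂, hR₂⟩ := side_reach hDec hSlow s.swap hs.swap hdu hC₀ hδ hδu
    hχA hU htrap h2 h2A hbA
  obtain ⟨b₁, e₃, he₃, hR₃⟩ := exists_crude_reach s hs hds
  obtain ⟨b₂, e₄, he₄, hR₄⟩ := exists_crude_reach s.swap hs.swap hdu
  obtain ⟨εB, CB, hBr⟩ := br M W E f s hs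
  set ε₀ : ℝ := min ε₁ ε₂ with hε₀
  have hε₀0 : 0 < ε₀ := lt_min hD₁.ε_pos hD₂.ε_pos
  set C : ℝ := max C₁ C₂ with hC
  have hC1 : 1 ≤ C := hD₁.one_le.trans (le_max_left _ _)
  set e : ℝ := min (min e₁ e₂) (min e₃ e₄) with he
  have he0 : 0 < e := by positivity
  have hχs : 0 < χs := hδ.trans hδs
  have hχu : 0 < χu := hδ.trans hδu
  have hexp : ∀ (c : ℝ) (j : ℕ), Real.exp (-c) ^ j = Real.exp (-(c * j)) := by
    intro c j
    rw [← Real.exp_nat_mul]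
    congr 1
    ring
  refine N3.principle (f := f) (X := M) (U := U) (ε₀ := ε₀) (e₁ := e) (C := C) (a := χu - δ)
    (aA := χA - δ) (as := χs - δ) (b := max bA χA + (du + 1) * δ)
    (bs := max bR χR + (ds + 1) * δ) (b₀ := max b₁ b₂) hε₀0 hC1 (by linarith) (by linarith)
    (fun p q hq j => ?_) (fun p q hq i hi => ?_) (fun p q hq j => ?_) hBr.exist hU htrap hfr he0
    ?_ ?_ ?_ ?_ ?_ ?_
  · have h3 := hD₂.dec p q (Wl_mono (min_le_right _ _) hq) j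
    rw [hexp] at h3
    refine h3.trans ?_
    gcongr
    exact le_max_right _ _
  · have h3 := hA₂ p q (Wl_mono (min_le_right _ _) hq) i hi
    rw [hexp] at h3
    refine h3.trans ?_
    gcongr
    exact le_max_right _ _
  · have h3 := hD₁.dec p q (Wl_mono (min_le_left _ _) hq) j
    rw [hexp] at h3
    refine h3.trans ?_
    gcongr
    exact le_max_left _ _
  · have h3 : χA ≤ max bA χA := le_max_right _ _
    have h4 : 0 ≤ ((du : ℝ) + 1) * δ := by positivity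
    linarith
  · have h3 : χR ≤ max bR χR := le_max_right _ _
    have h4 : 0 ≤ ((ds : ℝ) + 1) * δ := by positivity
    linarith
  · exact (hR₄.mono subset_rfl ((min_le_right _ _).trans (min_le_right _ _))
      (le_max_right _ _)).reachW hD₂
  · exact (hR₃.mono subset_rfl ((min_le_right _ _).trans (min_le_left _ _))
      (le_max_left _ _)).reachW (f := f.symm) hD₁
  · exact (hR₂.mono subset_rfl ((min_le_left _ _).trans (min_le_right _ _)) le_rfl).reachW hD₂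
  · exact (hR₁.mono subset_rfl ((min_le_left _ _).trans (min_le_left _ _)) le_rfl).reachW
      (f := f.symm) hD₁

/-- **Location refined pinching, abstract form.** -/
theorem split_trap (hDec : SpecDecOn.{v, u}) (hSlow : SpecSlowOn.{v, u}) (s : Split E f)
    (hs : s.Hyperbolic) {ds du : ℕ} (hds : ∀ x, Module.finrank ℝ ((s.S x).range) = ds)
    (hdu : ∀ x, Module.finrank ℝ ((s.U x).range) = du) {C₀ χs χu χR χA bR bA : ℝ}
    (hC₀ : 0 ≤ C₀) (hχs : 0 < χs) (hχu : 0 < χu) (hχR : χs ≤ χR) (hχA : χu ≤ χA)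
    {U : Set M} (hU : IsOpen U) (htrap : f '' closure U ⊆ U) (hfr : (frontier U).Nonempty)
    (h1 : ∀ (k : ℕ) (x : M) (w : W),
      ‖iterD s.D f k x (s.S x w)‖ ≤ C₀ * Real.exp (-χs) ^ k * ‖w‖)
    (h2 : ∀ (k : ℕ) (x : M) (w : W),
      ‖iterD s.Di f.symm k x (s.U x w)‖ ≤ C₀ * Real.exp (-χu) ^ k * ‖w‖)
    (h1R : ∀ (k : ℕ) (x : M), (∀ t < k, f^[t] x ∈ (closure U)ᶜ) → ∀ w : W,
      ‖iterD s.D f k x (s.S x w)‖ ≤ C₀ * Real.exp (-χR) ^ k * ‖w‖)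
    (h2A : ∀ (k : ℕ) (x : M), (∀ t < k, f.symm^[t] x ∈ U) → ∀ w : W,
      ‖iterD s.Di f.symm k x (s.U x w)‖ ≤ C₀ * Real.exp (-χA) ^ k * ‖w‖)
    (hbR : (∀ (k : ℕ), ∀ x ∈ (closure U)ᶜ, ∀ w : W,
      ‖iterD s.Di f.symm k x (s.S x w)‖ ≤ C₀ * Real.exp bR ^ k * ‖w‖) ∨
      ∀ h : ℝ, bR + ((ds : ℝ) - 1) * χR < h → HasCoversOn f.symm (closure (closure U)ᶜ) h)
    (hbA : (∀ (k : ℕ), ∀ x ∈ U, ∀ w : W,
      ‖iterD s.D f k x (s.U x w)‖ ≤ C₀ * Real.exp bA ^ k * ‖w‖) ∨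
      ∀ h : ℝ, bA + ((du : ℝ) - 1) * χA < h → HasCoversOn f (closure U) h) :
    χu * χs ≤ (max bA χA - χA) * (max bR χR - χs) := by
  by_contra hcon
  push Not at hcon
  have hc1 : ContinuousAt (fun δ : ℝ => (max bA χA + (du + 1) * δ - (χA - δ)) *
      (max bR χR + (ds + 1) * δ - (χs - δ))) 0 := by fun_prop
  have hc2 : ContinuousAt (fun δ : ℝ => (χu - δ) * (χs - δ)) 0 := by fun_prop
  have h3 : ∀ᶠ δ in 𝓝 (0 : ℝ), (max bA χA + (du + 1) * δ - (χA - δ)) *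
      (max bR χR + (ds + 1) * δ - (χs - δ)) < (χu - δ) * (χs - δ) := by
    refine hc1.eventually_lt hc2 ?_
    simp only [mul_zero, add_zero, sub_zero]
    exact hcon
  have h4 : ∀ᶠ δ in 𝓝 (0 : ℝ), δ < χs := gt_mem_nhds hχs
  have h5 : ∀ᶠ δ in 𝓝 (0 : ℝ), δ < χu := gt_mem_nhds hχu
  have h6 : ∀ᶠ δ in 𝓝[>] (0 : ℝ), (δ < χs ∧ δ < χu) ∧
      (max bA χA + (du + 1) * δ - (χA - δ)) *
      (max bR χR + (ds + 1) * δ - (χs - δ)) < (χu - δ) * (χs - δ) :=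
    nhdsWithin_le_nhds ((h4.and h5).and h3)
  obtain ⟨δ, h7, h8⟩ := (h6.and self_mem_nhdsWithin).exists
  exact absurd (split_trap_delta hDec hSlow s hs hds hdu hC₀ h8 h7.1.1 h7.1.2 hχR hχA hU htrap
    hfr h1 h2 h1R h2A hbR hbA) (not_le.2 h7.2)

end Pool.Agent.Lib.MP610fe3.H6
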