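import Pool.Agent.Lib.MP_610fe3_an.Cf.Spec

/-!
# Location refined pinching: specifications of the modules
-/

open Set Filter Function MeasureTheory
open scoped Topology

namespace Pool.Agent.Lib.MP610fe3.H6

open Cf

universe u v

/-- `F` is covered by `Λ exp (h n)` closed sets which stay small up to time `n`. -/
def HasCoversOn {M : Type*} [MetricSpace M] (f : M → M) (F : Set M) (h : ℝ) : Prop :=
  ∀ ε : ℝ, 0 < ε → ∃ Λ : ℝ, ∀ n : ℕ, ∃ (N : ℕ) (D : Fin N → Set M),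
    (N : ℝ) ≤ Λ * Real.exp (h * n) ∧ (∀ i, IsClosed (D i)) ∧ F ⊆ (⋃ i, D i) ∧
    ∀ i, ∀ y ∈ D i, ∀ y' ∈ D i, ∀ k ≤ n, dist (f^[k] y) (f^[k] y') ≤ ε

/-- Module ENTON. -/
def SpecEntOn : Prop :=
  ∀ (M : Type v) [MetricSpace M] [CompactSpace M] (T : M → M), Continuous T →
    ∀ (F : Set M), IsClosed F → MapsTo T F F → ∀ h : ℝ,
    Dynamics.coverEntropy T F < (h : EReal) → HasCoversOn T F h

/-- Module ENTPRE. -/
def SpecEntPre : Prop :=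
  ∀ (M : Type v) [MetricSpace M] [CompactSpace M] (T : M → M), Continuous T →
    ∀ (F : Set M) (h : ℝ), HasCoversOn T F h → HasCoversOn T (T ⁻¹' F) h

/-- Module DECON: the contraction rate of pairs whose base point stays in `Y` (compare
`H6/Sharp.lean`, `exists_dec_rate`). -/
def SpecDecOn : Prop :=
  ∀ (M : Type u) (W : Type v) [MetricSpace M] [CompactSpace M] [NormedAddCommGroup W]
    [NormedSpace ℝ W] (E : Emb M W) (f : M ≃ₜ M) (s : Split E f), s.Hyperbolic →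
    ∀ (Y : Set M) (C₀ m l : ℝ), 0 < m → m < l → l < 1 →
    (∀ (k : ℕ) (x : M), (∀ t < k, f^[t] x ∈ Y) → ∀ w : W,
      ‖iterD s.D f k x (s.S x w)‖ ≤ C₀ * m ^ k * ‖w‖) →
    ∃ ε C : ℝ, 0 < ε ∧ 1 ≤ C ∧ ∀ x, ∀ z ∈ Wl f ε x, ∀ n : ℕ, (∀ t < n, f^[t] x ∈ Y) →
      dist (f^[n] z) (f^[n] x) ≤ C * l ^ n * dist z x

/-- Module SLOWON: paths with controlled growth over a set `Y` (compare `H6/Sharp.lean`,
`exists_slow`). -/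
def SpecSlowOn : Prop :=
  ∀ (M : Type u) (W : Type v) [MetricSpace M] [CompactSpace M] [NormedAddCommGroup W]
    [NormedSpace ℝ W] [FiniteDimensional ℝ W] (E : Emb M W) (f : M ≃ₜ M) (s : Split E f),
    s.Hyperbolic → ∀ (Y : Set M) (C₀ κ : ℝ), 0 ≤ C₀ → 0 ≤ κ →
    (∀ (k : ℕ), ∀ x ∈ Y, ∀ w : W, ‖iterD s.Di f.symm k x (s.S x w)‖ ≤ C₀ * κ ^ k * ‖w‖) →
    ∀ ε₁ r₀ : ℝ, 0 < ε₁ → 0 < r₀ → ∃ ρ Λ : ℝ, 0 < ρ ∧ 0 ≤ Λ ∧
      ∀ x, Metric.closedBall x r₀ ⊆ Y → ∀ y ∈ Wl f ρ x, ∃ γ : ℝ → M,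
        ContinuousOn γ (Icc 0 1) ∧ γ 0 = x ∧ γ 1 = y ∧
        (∀ t ∈ Icc (0 : ℝ) 1, ∀ t' ∈ Icc (0 : ℝ) 1, γ t ∈ Wl f ε₁ (γ t')) ∧
        ∀ n : ℕ, ∀ t ∈ Icc (0 : ℝ) 1, ∀ t' ∈ Icc (0 : ℝ) 1,
          dist (f.symm^[n] (γ t)) (f.symm^[n] (γ t')) ≤ Λ * κ ^ n * |t - t'|

end Pool.Agent.Lib.MP610fe3.H6
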